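import Mathlib
import Pool.Agent.R306.GP.CircIID

/-!
Exponential sums over dilated sequences.
-/

set_option autoImplicit false

open MeasureTheory Filter Topology Set Real
open scoped ENNReal
open Pool.Agent.H469R2.NK (e norm_e e_add conj_e e_zero)
open Pool.Agent.H383.Gen (U Bd)
open Pool.Agent.Y969.TM
open Pool.Agent.R306.GP

namespace Run7.h113.MT

/-- sequences with gaps -/
structure DS (a : ℕ → ℝ) (δ : ℝ) : Prop where
  dpos : 0 < δ
  low : ∀ n, δ * (n + 1) ≤ a n
  gap : ∀ n, a n + δ ≤ a (n + 1)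

variable {a : ℕ → ℝ} {δ c d : ℝ}

lemma DS.dist (h : DS a δ) {n m : ℕ} (hnm : n ≤ m) : δ * ((m - n : ℕ) : ℝ) ≤ a m - a n := by
  obtain ⟨k, rfl⟩ := Nat.exists_eq_add_of_le hnm
  rw [Nat.add_sub_cancel_left]
  induction k with
  | zero => simp
  | succ k ih =>
    have h1 := h.gap (n + k)
    have h2 := ih (by omega)
    push_cast
    have e : n + (k + 1) = n + k + 1 := by ring
    rw [e]
    linarith

lemma int_e {x : ℝ} (hx : x ≠ 0) : ‖∫ α in c..d, e (α * x)‖ ≤ 1 / |x| := by
  have hpi := Real.pi_gt_three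
  have hx' : 0 < |x| := abs_pos.2 hx
  have h1 : ∀ α : ℝ, e (α * x) = Complex.exp ((((2 * Real.pi * x : ℝ) : ℂ) * Complex.I) * α) := by
    intro α
    unfold Pool.Agent.H469R2.NK.e
    congr 1
    push_cast
    ring
  simp_rw [h1]
  have hc : (((2 * Real.pi * x : ℝ) : ℂ) * Complex.I) ≠ 0 := by
    apply mul_ne_zero _ Complex.I_ne_zero
    have : 2 * Real.pi * x ≠ 0 := by positivity
    exact_mod_cast this
  rw [integral_exp_mul_complex hc, norm_div]
  have h2 : ∀ α : ℝ, ‖Complex.exp ((((2 * Real.pi * x : ℝ) : ℂ) * Complex.I) * α)‖ = 1 := by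
    intro α
    rw [← h1, norm_e]
  have h3 : ‖(((2 * Real.pi * x : ℝ) : ℂ) * Complex.I)‖ = 2 * Real.pi * |x| := by
    rw [norm_mul, Complex.norm_I, mul_one, Complex.norm_real, Real.norm_eq_abs, abs_mul, abs_of_pos (by positivity)]
  rw [h3]
  calc _ ≤ 2 / (2 * Real.pi * |x|) := by
        apply div_le_div_of_nonneg_right _ (by positivity)
        refine (norm_sub_le _ _).trans ?_
        rw [h2, h2]
        norm_num
    _ ≤ 1 / |x| := by
        rw [div_le_div_iff₀ (by positivity) hx']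
        nlinarith

/-- sums of reciprocals of distances -/
lemma recip_sum (N1 L m : ℕ) (hm : m ∈ Finset.Ico N1 (N1 + L)) :
    ∑ n ∈ (Finset.Ico N1 (N1 + L)).erase m, 1 / |(m:ℝ) - n| ≤ 2 * (1 + Real.log L) := by
  rw [Finset.mem_Ico] at hm
  have hL : 1 ≤ L := by omega
  have h1 : (Finset.Ico N1 (N1 + L)).erase m = Finset.Ico N1 m ∪ Finset.Ico (m + 1) (N1 + L) := by
    ext n
    simp only [Finset.mem_erase, Finset.mem_union, Finset.mem_Ico]
    omega
  have h2 : Disjoint (Finset.Ico N1 m) (Finset.Ico (m + 1) (N1 + L)) := by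
    rw [Finset.disjoint_left]
    intro n hn hn'
    rw [Finset.mem_Ico] at hn hn'
    omega
  rw [h1, Finset.sum_union h2]
  have key : ∀ (G : Finset ℕ) (φ : ℕ → ℕ), Set.InjOn φ G → (∀ n ∈ G, φ n ∈ Finset.Ico 1 L ∧ |(m:ℝ) - n| = φ n) →
      ∑ n ∈ G, 1 / |(m:ℝ) - n| ≤ ∑ l ∈ Finset.Ico 1 L, 1 / (l:ℝ) := by
    intro G φ hinj hφ
    have h3 : ∑ n ∈ G, 1 / |(m:ℝ) - n| = ∑ l ∈ G.image φ, 1 / (l:ℝ) := by
      rw [Finset.sum_image hinj]
      exact Finset.sum_congr rfl fun n hn => by rw [(hφ n hn).2]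
    rw [h3]
    apply Finset.sum_le_sum_of_subset_of_nonneg
    · intro l hl
      rw [Finset.mem_image] at hl
      obtain ⟨n, hn, rfl⟩ := hl
      exact (hφ n hn).1
    · intro l _ _
      positivity
  have h3 := key (Finset.Ico N1 m) (fun n => m - n) (by
    intro x hx y hy hxy
    rw [Finset.coe_Ico, Set.mem_Ico] at hx hy
    simp only at hxy
    omega) (by
    intro n hn
    rw [Finset.mem_Ico] at hn
    refine ⟨by rw [Finset.mem_Ico]; omega, ?_⟩
    have : (n:ℝ) < m := by exact_mod_cast hn.2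
    rw [abs_of_pos (by linarith), Nat.cast_sub hn.2.le])
  have h4 := key (Finset.Ico (m + 1) (N1 + L)) (fun n => n - m) (by
    intro x hx y hy hxy
    rw [Finset.coe_Ico, Set.mem_Ico] at hx hy
    simp only at hxy
    omega) (by
    intro n hn
    rw [Finset.mem_Ico] at hn
    refine ⟨by rw [Finset.mem_Ico]; omega, ?_⟩
    have : (m:ℝ) < n := by exact_mod_cast (by omega : m < n)
    rw [abs_of_neg (by linarith), Nat.cast_sub (by omega)]
    ring)
  have h5 : ∑ l ∈ Finset.Ico 1 L, 1 / (l:ℝ) ≤ 1 + Real.log L := by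
    have g1 := harmonic_le_one_add_log (L - 1)
    have g2 : ((harmonic (L - 1) : ℚ) : ℝ) = ∑ l ∈ Finset.Ico 1 L, 1 / (l:ℝ) := by
      unfold harmonic
      push_cast
      rw [Finset.sum_Ico_eq_sum_range]
      refine Finset.sum_congr rfl fun i _ => ?_
      push_cast
      rw [one_div, add_comm]
    rw [← g2]
    refine g1.trans ?_
    have : Real.log ((L - 1 : ℕ) : ℝ) ≤ Real.log L := by
      rcases Nat.eq_zero_or_pos (L - 1) with h | h
      · rw [h]
        simp only [Nat.cast_zero, Real.log_zero]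
        exact Real.log_natCast_nonneg L
      · apply Real.log_le_log
        · exact_mod_cast h
        · exact_mod_cast Nat.sub_le L 1
    linarith
  linarith

/-- **second moment of an exponential sum** -/
theorem sq_sum (h : DS a δ) (hcd : c ≤ d) {F : ℝ} (hF : F ≠ 0) (u : ℕ → ℂ) (hu : ∀ n, ‖u n‖ ≤ 1) (N1 L : ℕ) :
    ∫ α in c..d, ‖∑ n ∈ Finset.Ico N1 (N1 + L), u n * e (α * (F * a n))‖ ^ 2 ≤
      L * (d - c) + L * (2 * (1 + Real.log L)) / (|F| * δ) := by
  set S := Finset.Ico N1 (N1 + L) with hS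
  have hF' : 0 < |F| := abs_pos.2 hF
  have hδ := h.dpos
  have h1 : ∀ α : ℝ, (((‖∑ n ∈ S, u n * e (α * (F * a n))‖ ^ 2 : ℝ)) : ℂ) =
      ∑ m ∈ S, ∑ n ∈ S, (u m * (starRingEnd ℂ) (u n)) * e (α * (F * (a m - a n))) := by
    intro α
    have h2 : (((‖∑ n ∈ S, u n * e (α * (F * a n))‖ ^ 2 : ℝ)) : ℂ) =
        (∑ n ∈ S, u n * e (α * (F * a n))) * (starRingEnd ℂ) (∑ n ∈ S, u n * e (α * (F * a n))) := by
      rw [Complex.mul_conj, Complex.normSq_eq_norm_sq]
    rw [h2, map_sum, Finset.sum_mul_sum]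
    apply Finset.sum_congr rfl
    intro m _
    apply Finset.sum_congr rfl
    intro n _
    rw [map_mul, conj_e, show α * (F * (a m - a n)) = α * (F * a m) + -(α * (F * a n)) by ring, e_add]
    ring
  have hc2 : ∀ x : ℝ, Continuous fun α : ℝ => e (α * x) := fun x =>
    e_continuous.comp (continuous_id.mul continuous_const)
  have h3 : ((∫ α in c..d, ‖∑ n ∈ S, u n * e (α * (F * a n))‖ ^ 2 : ℝ) : ℂ) =
      ∑ m ∈ S, ∑ n ∈ S, (u m * (starRingEnd ℂ) (u n)) * ∫ α in c..d, e (α * (F * (a m - a n))) := by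
    rw [← intervalIntegral.integral_ofReal]
    rw [intervalIntegral.integral_congr (fun α _ => h1 α)]
    rw [intervalIntegral.integral_finsetSum]
    · apply Finset.sum_congr rfl
      intro m _
      rw [intervalIntegral.integral_finsetSum]
      · apply Finset.sum_congr rfl
        intro n _
        rw [intervalIntegral.integral_const_mul]
      · intro n _
        exact (continuous_const.mul (hc2 _)).intervalIntegrable _ _
    · intro m _
      exact (continuous_finsetSum _ fun n _ => continuous_const.mul (hc2 _)).intervalIntegrable _ _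
  have h4 : ∫ α in c..d, ‖∑ n ∈ S, u n * e (α * (F * a n))‖ ^ 2 ≤
      ∑ m ∈ S, ∑ n ∈ S, ‖∫ α in c..d, e (α * (F * (a m - a n)))‖ := by
    have h5 : ∫ α in c..d, ‖∑ n ∈ S, u n * e (α * (F * a n))‖ ^ 2 ≤
        ‖((∫ α in c..d, ‖∑ n ∈ S, u n * e (α * (F * a n))‖ ^ 2 : ℝ) : ℂ)‖ := by
      rw [Complex.norm_real]; exact Real.le_norm_self _
    refine h5.trans ?_
    rw [h3]
    refine (norm_sum_le _ _).trans (Finset.sum_le_sum fun m _ => (norm_sum_le _ _).trans (Finset.sum_le_sum fun n _ => ?_))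
    rw [norm_mul, norm_mul, RCLike.norm_conj]
    apply mul_le_of_le_one_left (norm_nonneg _)
    exact mul_le_one₀ (hu m) (norm_nonneg _) (hu n)
  refine h4.trans ?_
  have h5 : ∀ m ∈ S, ∑ n ∈ S, ‖∫ α in c..d, e (α * (F * (a m - a n)))‖ ≤
      (d - c) + (2 * (1 + Real.log L)) / (|F| * δ) := by
    intro m hm
    rw [← Finset.add_sum_erase S _ hm]
    apply add_le_add
    · rw [sub_self, mul_zero]
      simp only [mul_zero, e_zero]
      rw [intervalIntegral.integral_const]
      simp only [Complex.real_smul, mul_one]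
      rw [Complex.norm_real, Real.norm_eq_abs, abs_of_nonneg (by linarith)]
    · have h6 : ∀ n ∈ S.erase m, ‖∫ α in c..d, e (α * (F * (a m - a n)))‖ ≤ 1 / |(m:ℝ) - n| * (1 / (|F| * δ)) := by
        intro n hn
        rw [Finset.mem_erase] at hn
        have hdist : δ * |(m:ℝ) - n| ≤ |a m - a n| := by
          rcases lt_or_gt_of_ne hn.1 with h7 | h7
          · have h8 := h.dist h7.le
            rw [Nat.cast_sub h7.le] at h8
            have h9 : (n:ℝ) < m := by exact_mod_cast h7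
            rw [abs_of_pos (by linarith : 0 < (m:ℝ) - n)]
            exact h8.trans (le_abs_self _)
          · have h8 := h.dist h7.le
            rw [Nat.cast_sub h7.le] at h8
            have h9 : (m:ℝ) < n := by exact_mod_cast h7
            rw [abs_of_neg (by linarith : (m:ℝ) - n < 0), abs_sub_comm]
            refine le_trans (le_of_eq ?_) (h8.trans (le_abs_self _))
            ring
        have hmn : 0 < |(m:ℝ) - n| := by
          apply abs_pos.2
          rw [sub_ne_zero]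
          exact_mod_cast hn.1.symm
        have hne : F * (a m - a n) ≠ 0 := by
          apply mul_ne_zero hF
          intro h0
          rw [h0, abs_zero] at hdist
          have : 0 < δ * |(m:ℝ) - n| := by positivity
          linarith
        refine (int_e hne).trans ?_
        rw [abs_mul]
        have h10 : |F| * (δ * |(m:ℝ) - n|) ≤ |F| * |a m - a n| := mul_le_mul_of_nonneg_left hdist hF'.le
        calc 1 / (|F| * |a m - a n|) ≤ 1 / (|F| * (δ * |(m:ℝ) - n|)) :=
              one_div_le_one_div_of_le (by positivity) h10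
          _ = _ := by field_simp
      refine (Finset.sum_le_sum h6).trans ?_
      rw [← Finset.sum_mul]
      have h7 := recip_sum N1 L m hm
      calc (∑ n ∈ S.erase m, 1 / |(m:ℝ) - n|) * (1 / (|F| * δ)) ≤ (2 * (1 + Real.log L)) * (1 / (|F| * δ)) :=
            mul_le_mul_of_nonneg_right h7 (by positivity)
        _ = _ := by ring
  refine (Finset.sum_le_sum h5).trans (le_of_eq ?_)
  rw [Finset.sum_const, nsmul_eq_mul, hS, Nat.card_Ico, Nat.add_sub_cancel_left]
  ring

/-- **Weyl's theorem for almost all dilates** -/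
theorem weyl_one (h : DS a δ) {F : ℝ} (hF : F ≠ 0) (u : ℕ → ℂ) (hu : ∀ n, ‖u n‖ ≤ 1) :
    ∀ᵐ α : ℝ, 0 < α →
      Tendsto (fun N : ℕ => (∑ n ∈ Finset.range N, u n * e (α * (F * a n))) / (N:ℂ)) atTop (𝓝 0) := by
  apply ae_pos
  intro c d hc hcd
  have hF' : 0 < |F| := abs_pos.2 hF
  have hδ := h.dpos
  have hdc : 0 < d - c := by linarith
  have hcont : ∀ n : ℕ, Continuous fun α : ℝ => u n * e (α * (F * a n)) := fun n =>
    continuous_const.mul (e_continuous.comp (continuous_id.mul continuous_const))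
  have hmain := ae_zero' (c := c) (d := d) hcd.le
    (g := fun m α => ‖(∑ n ∈ Finset.range (m ^ 2), u n * e (α * (F * a n))) / ((m:ℂ) ^ 2)‖ ^ 2)
    (fun m => ((continuous_finsetSum _ fun n _ => hcont n).div_const _).norm.pow 2)
    (B := fun m => ((d - c) + 10 / (|F| * δ)) * (1 / (m:ℝ) ^ (3/2 : ℝ)))
    ((Real.summable_one_div_nat_rpow.2 (by norm_num)).mul_left _) (j0 := 1) (by
      intro m hm
      have hm0 : (0:ℝ) < m := by exact_mod_cast hm
      have hm1 : (1:ℝ) ≤ m := by exact_mod_cast hm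
      have h1 := sq_sum h hcd.le hF u hu 0 (m ^ 2)
      rw [zero_add, ← Finset.range_eq_Ico] at h1
      have h2 : ∀ α : ℝ, ‖(∑ n ∈ Finset.range (m ^ 2), u n * e (α * (F * a n))) / ((m:ℂ) ^ 2)‖ ^ 2 =
          (1 / (m:ℝ) ^ 4) * ‖∑ n ∈ Finset.range (m ^ 2), u n * e (α * (F * a n))‖ ^ 2 := by
        intro α
        rw [norm_div, norm_pow, Complex.norm_natCast, div_pow, ← pow_mul]
        ring
      simp_rw [h2]
      rw [intervalIntegral.integral_const_mul]
      have hlog : Real.log ((m ^ 2 : ℕ) : ℝ) ≤ 4 * (m:ℝ) ^ (1/2:ℝ) := by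
        push_cast
        rw [Real.log_pow]
        have := Real.log_le_rpow_div hm0.le (show (0:ℝ) < 1/2 by norm_num)
        push_cast
        linarith
      have hs1 : 1 ≤ (m:ℝ) ^ (1/2:ℝ) := Real.one_le_rpow hm1 (by norm_num)
      have h3 : (m ^ 2 : ℕ) * (d - c) + (m ^ 2 : ℕ) * (2 * (1 + Real.log ((m ^ 2 : ℕ) : ℝ))) / (|F| * δ) ≤
          ((d - c) + 10 / (|F| * δ)) * ((m:ℝ) ^ 2 * (m:ℝ) ^ (1/2:ℝ)) := by
        push_cast at hlog ⊢
        have h4 : (m:ℝ) ^ 2 * (d - c) ≤ (d - c) * ((m:ℝ) ^ 2 * (m:ℝ) ^ (1/2:ℝ)) := by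
          have : 0 ≤ (d - c) * (m:ℝ) ^ 2 := by positivity
          nlinarith
        have h5 : (m:ℝ) ^ 2 * (2 * (1 + Real.log ((m:ℝ) ^ 2))) / (|F| * δ) ≤ 10 / (|F| * δ) * ((m:ℝ) ^ 2 * (m:ℝ) ^ (1/2:ℝ)) := by
          rw [div_mul_eq_mul_div]
          apply div_le_div_of_nonneg_right _ (by positivity)
          have : 0 ≤ (m:ℝ) ^ 2 := by positivity
          nlinarith
        linarith
      calc 1 / (m:ℝ) ^ 4 * ∫ α in c..d, ‖∑ n ∈ Finset.range (m ^ 2), u n * e (α * (F * a n))‖ ^ 2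
          ≤ 1 / (m:ℝ) ^ 4 * (((d - c) + 10 / (|F| * δ)) * ((m:ℝ) ^ 2 * (m:ℝ) ^ (1/2:ℝ))) :=
            mul_le_mul_of_nonneg_left (h1.trans h3) (by positivity)
        _ = ((d - c) + 10 / (|F| * δ)) * (((m:ℝ) ^ 2 * (m:ℝ) ^ (1/2:ℝ)) / (m:ℝ) ^ 4) := by ring
        _ = _ := by
            congr 1
            rw [← Real.rpow_natCast (m:ℝ) 2, ← Real.rpow_natCast (m:ℝ) 4, ← Real.rpow_add hm0, ← Real.rpow_sub hm0,
              one_div ((m:ℝ) ^ (3/2:ℝ)), ← Real.rpow_neg hm0.le]
            congr 1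
            norm_num)
    (fun m α => by positivity)
  filter_upwards [hmain] with α hα
  refine sqfill (z := fun n => u n * e (α * (F * a n))) (fun n => ?_) ?_
  · rw [norm_mul, norm_e, mul_one]
    exact hu n
  · rw [tendsto_zero_iff_norm_tendsto_zero]
    have h1 := hα.sqrt
    rw [Real.sqrt_zero] at h1
    refine h1.congr fun m => ?_
    exact Real.sqrt_sq (norm_nonneg _)

/-- several dilates -/
theorem weyl_pi {k : ℕ} {a b : Fin k → ℕ → ℝ} {δ : ℝ} (h : ∀ j, DS (a j) δ) {F : Fin k → ℝ} {j0 : Fin k}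
    (hF : F j0 ≠ 0) : ∀ᵐ α : Fin k → ℝ, (∀ j, 0 < α j) →
      Tendsto (fun N : ℕ => (∑ n ∈ Finset.range N, e (∑ j, F j * (α j * a j n + b j n))) / (N:ℂ)) atTop (𝓝 0) := by
  obtain ⟨k, rfl⟩ : ∃ k', k = k' + 1 := ⟨k - 1, by have := j0.pos; omega⟩
  set ψ := MeasurableEquiv.piFinSuccAbove (fun _ : Fin (k + 1) => ℝ) j0 with hψ
  have hmp := volume_preserving_piFinSuccAbove (fun _ : Fin (k + 1) => ℝ) j0
  -- the function on the product
  set S : ℕ → (ℝ × (Fin k → ℝ)) → ℂ := fun N z => (∑ n ∈ Finset.range N,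
    e (F j0 * (z.1 * a j0 n + b j0 n) + ∑ i : Fin k, F (j0.succAbove i) * (z.2 i * a (j0.succAbove i) n + b (j0.succAbove i) n)))
      / (N:ℂ) with hS
  have hSm : ∀ N, Measurable (S N) := by
    intro N
    apply Measurable.div_const
    apply Finset.measurable_sum
    intro n _
    exact e_continuous.measurable.comp (by fun_prop)
  have hset : MeasurableSet {z : ℝ × (Fin k → ℝ) | 0 < z.1 → Tendsto (fun N => S N z) atTop (𝓝 0)} := by
    have h1 : MeasurableSet {z : ℝ × (Fin k → ℝ) | Tendsto (fun N => S N z) atTop (𝓝 0)} := by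
      have h2 : {z : ℝ × (Fin k → ℝ) | Tendsto (fun N => S N z) atTop (𝓝 0)} =
          {z : ℝ × (Fin k → ℝ) | Tendsto (fun N => ‖S N z‖) atTop (𝓝 0)} := by
        ext z
        exact tendsto_zero_iff_norm_tendsto_zero
      rw [h2]
      exact measurableSet_tendsto (𝓝 0) (fun N => (hSm N).norm)
    have h2 : {z : ℝ × (Fin k → ℝ) | 0 < z.1 → Tendsto (fun N => S N z) atTop (𝓝 0)} =
        {z : ℝ × (Fin k → ℝ) | 0 < z.1}ᶜ ∪ {z : ℝ × (Fin k → ℝ) | Tendsto (fun N => S N z) atTop (𝓝 0)} := by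
      ext z
      simp only [Set.mem_ofPred_eq, Set.mem_union, Set.mem_compl_iff]
      tauto
    rw [h2]
    exact (measurableSet_lt measurable_const measurable_fst).compl.union h1
  have hprod : ∀ᵐ z : ℝ × (Fin k → ℝ), 0 < z.1 → Tendsto (fun N => S N z) atTop (𝓝 0) := by
    have h1 : ∀ᵐ z ∂((volume : Measure (Fin k → ℝ)).prod (volume : Measure ℝ)),
        0 < z.2 → Tendsto (fun N => S N (z.2, z.1)) atTop (𝓝 0) := by
      refine (Measure.ae_prod_iff_ae_ae (μ := (volume : Measure (Fin k → ℝ))) (ν := (volume : Measure ℝ))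
        (p := fun z : (Fin k → ℝ) × ℝ => 0 < z.2 → Tendsto (fun N => S N (z.2, z.1)) atTop (𝓝 0))
        (measurable_swap hset)).2 ?_
      refine Eventually.of_forall fun y => ?_
      have h2 := weyl_one (h j0) hF (fun n => e (F j0 * b j0 n + ∑ i : Fin k, F (j0.succAbove i) *
        (y i * a (j0.succAbove i) n + b (j0.succAbove i) n))) (fun n => (norm_e _).le)
      filter_upwards [h2] with x hx hx0
      refine (hx hx0).congr fun N => ?_
      simp only [hS]
      congr 1
      apply Finset.sum_congr rfl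
      intro n _
      rw [← e_add]
      congr 1
      ring
    have h2 := Measure.prod_swap (μ := (volume : Measure (Fin k → ℝ))) (ν := (volume : Measure ℝ))
    have h3 : ∀ᵐ z ∂(((volume : Measure (Fin k → ℝ)).prod (volume : Measure ℝ)).map Prod.swap),
        0 < z.1 → Tendsto (fun N => S N z) atTop (𝓝 0) := by
      rw [ae_map_iff measurable_swap.aemeasurable hset]
      exact h1
    rw [h2] at h3
    exact h3
  have h4 := hmp.quasiMeasurePreserving.ae hprod
  filter_upwards [h4] with α hα hpos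
  refine (hα (hpos j0)).congr fun N => ?_
  simp only [hS]
  congr 1
  apply Finset.sum_congr rfl
  intro n _
  congr 1
  rw [Fin.sum_univ_succAbove _ j0]
  rfl

end Run7.h113.MT
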