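import Mathlib
import Pool.Agent.Run7.h113.MT.Wy

/-!
Mean squares over dilates.
-/

set_option autoImplicit false

open MeasureTheory Filter Topology Set Real
open scoped ENNReal
open Pool.Agent.H469R2.NK (e norm_e e_add conj_e e_zero)
open Pool.Agent.H383.Gen (U Bd)
open Pool.Agent.H383.GW (Wt Sand)
open Pool.Agent.Y969.TM
open Pool.Agent.R306.GP

namespace Run7.h113.MT

variable {af : ℕ → ℝ} {φ : ℝ} {E : ℝ → ℝ} {a b : ℕ → ℝ} {δ c d B : ℝ}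

/-- the points -/
noncomputable def dl (a b : ℕ → ℝ) (n : ℕ) (α : ℝ) : ℝ := α * a n + b n

lemma dl_cont (a b : ℕ → ℝ) (n : ℕ) : Continuous (dl a b n) := by unfold dl; fun_prop

/-- mean square over the dilates of one point -/
theorem l2_dil {w : ℝ → ℂ} (ha : Bd af) (ha0 : af 0 = 0) (hw : Wt w) {κ₁ κ₂ C0 : ℝ} (hC0 : 0 < C0)
    (hS : Sand E af φ w κ₁ κ₂ C0) (hE : Measurable E) (hc : 0 < c) (hcd : c ≤ d) (hB : 0 ≤ B) :
    ∃ C : ℝ, 0 < C ∧ ∃ ρ : ℝ, 0 < ρ ∧ ∀ A b : ℝ, 0 < A → 0 ≤ b → b ≤ B * A → ρ ≤ c * A → ∀ M : ℕ, 1 ≤ M →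
      (M:ℝ) ^ 100 ≤ c * A / 2 →
      ∫⁻ y in Icc c d, ENNReal.ofReal ((E (y * A + b) - U af φ (y * A + b) M) ^ 2) ≤
        ENNReal.ofReal (C * (M:ℝ) ^ (-(1/200):ℝ)) := by
  obtain ⟨C, hC, i0, hBl⟩ := block (φ := φ) ha ha0 hw hC0 hS hE
  have hd : 0 < d := by linarith
  refine ⟨4 * C * (d + B), by positivity, max 8 (2 ^ (i0 + 1)), by positivity, ?_⟩
  intro A b hA hb hbB hρ M hM hM100
  set f : ℝ → ℝ := fun y => y * A + b with hf
  set Rc := f c with hRc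
  set Rd := f d with hRd
  have hcA : c * A ≤ Rc := by simp only [hRc, hf]; linarith
  have hRc8 : 8 ≤ Rc := ((le_max_left _ _).trans hρ).trans hcA
  have hmono : ∀ x y, x ≤ y → f x ≤ f y := by
    intro x y hxy
    simp only [hf]
    have := mul_le_mul_of_nonneg_right hxy hA.le
    linarith
  have hRcd : Rc ≤ Rd := hmono c d hcd
  have hM0 : (0:ℝ) < M := by exact_mod_cast hM
  have hfd : ∀ y ∈ Icc c d, HasDerivWithinAt f A (Icc c d) y := by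
    intro y _
    have h := ((hasDerivAt_id y).mul_const A).add_const b
    simp only [one_mul] at h
    exact h.hasDerivWithinAt
  have hinj : InjOn f (Icc c d) := by
    intro x _ y _ hxy
    simp only [hf] at hxy
    have : x * A = y * A := by linarith
    exact mul_right_cancel₀ hA.ne' this
  -- change of variables
  have h1 := lintegral_image_eq_lintegral_abs_deriv_mul (s := Icc c d) measurableSet_Icc hfd hinj
    (fun R => GG E af φ M R * ENNReal.ofReal (1 / A))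
  have h2 : ∫⁻ y in Icc c d, ENNReal.ofReal ((E (y * A + b) - U af φ (y * A + b) M) ^ 2) =
      ∫⁻ y in Icc c d, ENNReal.ofReal |A| * (GG E af φ M (f y) * ENNReal.ofReal (1 / A)) := by
    apply lintegral_congr
    intro y
    rw [abs_of_pos hA]
    have h4 : ENNReal.ofReal A * ENNReal.ofReal (1 / A) = 1 := by
      rw [← ENNReal.ofReal_mul hA.le, mul_one_div_cancel hA.ne', ENNReal.ofReal_one]
    rw [mul_comm (GG E af φ M (f y)), ← mul_assoc, h4, one_mul]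
    rfl
  rw [h2, ← h1]
  -- covering
  set i1 := ix Rc with hi1
  set i2 := ix Rd with hi2
  have hi0 : i0 ≤ i1 := by
    have h3 := (ix_mem hRc8).2
    rw [← hi1] at h3
    have h4 : (2:ℝ) ^ (i0 + 1) ≤ Rc := ((le_max_right _ _).trans hρ).trans hcA
    by_contra hlt
    push Not at hlt
    have h5 : (2:ℝ) ^ i1 * 2 ≤ 2 ^ i0 * 1 := by
      rw [← pow_succ, mul_one]
      exact pow_le_pow_right₀ (by norm_num) (by omega)
    rw [pow_succ] at h4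
    have : (0:ℝ) < 2 ^ i1 := by positivity
    nlinarith
  have hcov : f '' Icc c d ⊆ ⋃ i : (Finset.Icc i1 i2), Ico ((2:ℝ) ^ ((i:ℕ) - 1) + 4) (2 ^ (i:ℕ) + 4) := by
    rintro R ⟨y, hy, rfl⟩
    have h3 : Rc ≤ f y := hmono c y hy.1
    have h4 : f y ≤ Rd := hmono y d hy.2
    have h5 := ix_mem (hRc8.trans h3)
    rw [mem_iUnion]
    exact ⟨⟨ix (f y), Finset.mem_Icc.mpr ⟨ix_mono h3, ix_mono h4⟩⟩, h5⟩
  have hM2 : (M:ℝ) ^ 100 ≤ 2 ^ i1 := by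
    have h3 := (ix_mem hRc8).2
    rw [← hi1] at h3
    have : (M:ℝ) ^ 100 ≤ c * A / 2 := hM100
    linarith
  have hR2 : (2:ℝ) ^ (i2 + 1) ≤ 4 * ((d + B) * A) := by
    have h4 := (ix_mem (hRc8.trans hRcd)).1
    rw [← hi2] at h4
    have hi2' : 1 ≤ i2 := by rw [hi2]; unfold ix; omega
    have e1 : (2:ℝ) ^ (i2 + 1) = 2 ^ (i2 - 1) * 4 := by
      obtain ⟨k, hk⟩ : ∃ k, i2 = k + 1 := ⟨i2 - 1, by omega⟩
      rw [hk, Nat.add_sub_cancel, pow_succ, pow_succ]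
      ring
    have h5 : Rd ≤ (d + B) * A := by
      simp only [hRd, hf]
      linarith
    rw [e1]
    linarith
  have hgeo : ∀ k : ℕ, ∑ i ∈ Finset.range k, (2:ℝ) ^ i ≤ 2 ^ k := by
    intro k
    induction k with
    | zero => simp
    | succ k ih =>
      rw [Finset.sum_range_succ, pow_succ]
      linarith
  have hsum : ∑ i ∈ Finset.Icc i1 i2, (2:ℝ) ^ i ≤ 2 ^ (i2 + 1) := by
    refine le_trans ?_ (hgeo (i2 + 1))
    apply Finset.sum_le_sum_of_subset_of_nonneg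
    · intro i hi
      rw [Finset.mem_Icc] at hi
      rw [Finset.mem_range]
      omega
    · intro i _ _
      positivity
  have hMp : 0 < (M:ℝ) ^ (-(1/200):ℝ) := by positivity
  calc ∫⁻ R in f '' Icc c d, GG E af φ M R * ENNReal.ofReal (1 / A)
      ≤ ∫⁻ R in ⋃ i : (Finset.Icc i1 i2), Ico ((2:ℝ) ^ ((i:ℕ) - 1) + 4) (2 ^ (i:ℕ) + 4),
          GG E af φ M R * ENNReal.ofReal (1 / A) := lintegral_mono_set hcov
    _ ≤ ∑' i : (Finset.Icc i1 i2), ∫⁻ R in Ico ((2:ℝ) ^ ((i:ℕ) - 1) + 4) (2 ^ (i:ℕ) + 4),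
          GG E af φ M R * ENNReal.ofReal (1 / A) := lintegral_iUnion_le _ _
    _ = ∑ i ∈ Finset.Icc i1 i2, ∫⁻ R in Ico ((2:ℝ) ^ (i - 1) + 4) (2 ^ i + 4),
          GG E af φ M R * ENNReal.ofReal (1 / A) := by
        rw [tsum_fintype, Finset.sum_coe_sort (Finset.Icc i1 i2)
          (fun i : ℕ => ∫⁻ R in Ico ((2:ℝ) ^ (i - 1) + 4) (2 ^ i + 4),
          GG E af φ M R * ENNReal.ofReal (1 / A))]
    _ ≤ ∑ i ∈ Finset.Icc i1 i2, ENNReal.ofReal (C * (M:ℝ) ^ (-(1/200):ℝ) / A * 2 ^ i) := by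
        apply Finset.sum_le_sum
        intro i hi
        rw [Finset.mem_Icc] at hi
        have hMi : (M:ℝ) ^ 100 ≤ 2 ^ i := hM2.trans (pow_le_pow_right₀ (by norm_num) hi.1)
        have h3 := hBl i (hi0.trans hi.1) M hM hMi
        rw [lintegral_mul_const _ (GG_meas hE M)]
        calc (∫⁻ R in Ico ((2:ℝ) ^ (i - 1) + 4) (2 ^ i + 4), GG E af φ M R) * ENNReal.ofReal (1 / A)
            ≤ ENNReal.ofReal (C * (M:ℝ) ^ (-(1/200):ℝ) * 2 ^ i) * ENNReal.ofReal (1 / A) := by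
              gcongr
          _ = _ := by
              rw [← ENNReal.ofReal_mul (by positivity)]
              congr 1
              field_simp
    _ = ENNReal.ofReal (C * (M:ℝ) ^ (-(1/200):ℝ) / A * ∑ i ∈ Finset.Icc i1 i2, (2:ℝ) ^ i) := by
        rw [← ENNReal.ofReal_sum_of_nonneg (fun i _ => by positivity), Finset.mul_sum]
    _ ≤ _ := by
        apply ENNReal.ofReal_le_ofReal
        calc C * (M:ℝ) ^ (-(1/200):ℝ) / A * ∑ i ∈ Finset.Icc i1 i2, (2:ℝ) ^ i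
            ≤ C * (M:ℝ) ^ (-(1/200):ℝ) / A * (4 * ((d + B) * A)) :=
              mul_le_mul_of_nonneg_left (hsum.trans hR2) (by positivity)
          _ = _ := by field_simp

open Classical in
/-- second moment of the powers of the model polynomials -/
lemma pow_sq' (h : DS a δ) (b : ℕ → ℝ) (hcd : c ≤ d) (af : ℕ → ℝ) (φ : ℝ) (r M N1 L : ℕ) :
    ∫ y in c..d, ‖∑ n ∈ Finset.Ico N1 (N1 + L), (((U af φ (dl a b n y) M : ℝ) : ℂ) ^ r - ZZ af φ r M)‖ ^ 2 ≤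
      AA af M ^ r * (AA af M ^ r * (L * (d - c) + L * (2 * (1 + Real.log L)) / δ * ((r * M + 1 : ℕ) : ℝ) ^ (2 ^ r))) := by
  set T := (TT r M).filter (fun y => ∑ i, fq (y i) ≠ 0) with hT
  set cc : (Fin r → ℕ × Bool) → ℂ := fun y => ∏ i, cf af φ (y i) with hcc
  set s : (Fin r → ℕ × Bool) → ℝ → ℂ := fun η y => ∑ n ∈ Finset.Ico N1 (N1 + L),
    e (b n * ∑ i, fq (η i)) * e (y * ((∑ i, fq (η i)) * a n)) with hs
  have hδ := h.dpos
  have e1 : ∀ y : ℝ, ∑ n ∈ Finset.Ico N1 (N1 + L), (((U af φ (dl a b n y) M : ℝ) : ℂ) ^ r - ZZ af φ r M) =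
      ∑ η ∈ T, cc η * s η y := by
    intro y
    simp only [pow_expand, hs, hcc, hT]
    rw [Finset.sum_comm]
    apply Finset.sum_congr rfl
    intro η _
    rw [Finset.mul_sum]
    apply Finset.sum_congr rfl
    intro n _
    rw [← e_add]
    congr 2
    unfold dl
    ring
  have hA : ∑ η ∈ T, ‖cc η‖ ≤ AA af M ^ r := sum_norm_filter af φ r M _
  have hA0 : 0 ≤ AA af M ^ r := pow_nonneg (AA_nonneg _ _) _
  have hscont : ∀ η, Continuous (s η) := by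
    intro η
    simp only [hs]
    exact continuous_finsetSum _ fun n _ => continuous_const.mul
      (e_continuous.comp (continuous_id.mul continuous_const))
  have e2 : ∀ y : ℝ, ‖∑ η ∈ T, cc η * s η y‖ ^ 2 ≤ AA af M ^ r * ∑ η ∈ T, ‖cc η‖ * ‖s η y‖ ^ 2 := by
    intro y
    have h1 : ‖∑ η ∈ T, cc η * s η y‖ ≤ ∑ η ∈ T, √‖cc η‖ * (√‖cc η‖ * ‖s η y‖) := by
      refine (norm_sum_le _ _).trans (le_of_eq ?_)
      apply Finset.sum_congr rfl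
      intro η _
      rw [norm_mul, ← mul_assoc, Real.mul_self_sqrt (norm_nonneg _)]
    calc ‖∑ η ∈ T, cc η * s η y‖ ^ 2 ≤ (∑ η ∈ T, √‖cc η‖ * (√‖cc η‖ * ‖s η y‖)) ^ 2 :=
          pow_le_pow_left₀ (norm_nonneg _) h1 2
      _ ≤ (∑ η ∈ T, √‖cc η‖ ^ 2) * ∑ η ∈ T, (√‖cc η‖ * ‖s η y‖) ^ 2 := Finset.sum_mul_sq_le_sq_mul_sq _ _ _
      _ = (∑ η ∈ T, ‖cc η‖) * ∑ η ∈ T, ‖cc η‖ * ‖s η y‖ ^ 2 := by
          congr 1
          · exact Finset.sum_congr rfl fun η _ => Real.sq_sqrt (norm_nonneg _)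
          · exact Finset.sum_congr rfl fun η _ => by rw [mul_pow, Real.sq_sqrt (norm_nonneg _)]
      _ ≤ _ := by
          apply mul_le_mul_of_nonneg_right hA
          exact Finset.sum_nonneg fun η _ => by positivity
  have hcontL : Continuous fun y => ‖∑ n ∈ Finset.Ico N1 (N1 + L), (((U af φ (dl a b n y) M : ℝ) : ℂ) ^ r - ZZ af φ r M)‖ ^ 2 := by
    simp only [e1]
    exact (continuous_finsetSum _ fun η _ => continuous_const.mul (hscont η)).norm.pow 2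
  have hcontR : Continuous fun y => AA af M ^ r * ∑ η ∈ T, ‖cc η‖ * ‖s η y‖ ^ 2 :=
    continuous_const.mul (continuous_finsetSum _ fun η _ => continuous_const.mul ((hscont η).norm.pow 2))
  have hlog : 0 ≤ 1 + Real.log L := by
    have := Real.log_natCast_nonneg L
    linarith
  calc ∫ y in c..d, ‖∑ n ∈ Finset.Ico N1 (N1 + L), (((U af φ (dl a b n y) M : ℝ) : ℂ) ^ r - ZZ af φ r M)‖ ^ 2
      ≤ ∫ y in c..d, AA af M ^ r * ∑ η ∈ T, ‖cc η‖ * ‖s η y‖ ^ 2 := by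
        apply intervalIntegral.integral_mono_on hcd (hcontL.intervalIntegrable _ _) (hcontR.intervalIntegrable _ _)
        intro y _
        rw [e1]
        exact e2 y
    _ = AA af M ^ r * ∑ η ∈ T, ‖cc η‖ * ∫ y in c..d, ‖s η y‖ ^ 2 := by
        rw [intervalIntegral.integral_const_mul, intervalIntegral.integral_finsetSum]
        · congr 1
          apply Finset.sum_congr rfl
          intro η _
          rw [intervalIntegral.integral_const_mul]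
        · intro η _
          exact (continuous_const.mul ((hscont η).norm.pow 2)).intervalIntegrable _ _
    _ ≤ AA af M ^ r * ∑ η ∈ T, ‖cc η‖ *
        (L * (d - c) + L * (2 * (1 + Real.log L)) / δ * ((r * M + 1 : ℕ) : ℝ) ^ (2 ^ r)) := by
        apply mul_le_mul_of_nonneg_left _ hA0
        apply Finset.sum_le_sum
        intro η hη
        apply mul_le_mul_of_nonneg_left _ (norm_nonneg _)
        rw [hT, Finset.mem_filter] at hη
        have h2 := sq_sum h hcd hη.2 (fun n => e (b n * ∑ i, fq (η i))) (fun n => (norm_e _).le) N1 L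
        refine h2.trans ?_
        have h3 := gap_inv hη.1 hη.2 hδ
        have h4 : L * (2 * (1 + Real.log L)) / (|∑ i, fq (η i)| * δ) =
            (L * (2 * (1 + Real.log L))) * (1 / (|∑ i, fq (η i)| * δ)) := by ring
        have h5 : L * (2 * (1 + Real.log L)) / δ * ((r * M + 1 : ℕ) : ℝ) ^ (2 ^ r) =
            (L * (2 * (1 + Real.log L))) * (((r * M + 1 : ℕ) : ℝ) ^ (2 ^ r) / δ) := by ring
        rw [h4, h5]
        have h6 : 0 ≤ L * (2 * (1 + Real.log L)) := by positivity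
        have := mul_le_mul_of_nonneg_left h3 h6
        linarith
    _ ≤ _ := by
        apply mul_le_mul_of_nonneg_left _ hA0
        rw [← Finset.sum_mul]
        apply mul_le_mul_of_nonneg_right hA
        have h6 : 0 ≤ d - c := by linarith
        positivity

/-- the data -/
structure Cx2 (E : ℝ → ℝ) (af : ℕ → ℝ) (φ : ℝ) : Prop where
  ctx : Ctx E af φ
  l2 : ∀ c d B : ℝ, 0 < c → c ≤ d → 0 ≤ B → ∃ C : ℝ, 0 < C ∧ ∃ ρ : ℝ, 0 < ρ ∧ ∀ A b : ℝ, 0 < A → 0 ≤ b → b ≤ B * A →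
      ρ ≤ c * A → ∀ M : ℕ, 1 ≤ M → (M:ℝ) ^ 100 ≤ c * A / 2 →
      ∫⁻ y in Icc c d, ENNReal.ofReal ((E (y * A + b) - U af φ (y * A + b) M) ^ 2) ≤
        ENNReal.ofReal (C * (M:ℝ) ^ (-(1/200):ℝ))

theorem Cx2.of {w : ℝ → ℂ} (ha : Bd af) (ha0 : af 0 = 0) (hw : Wt w)
    {κ₁ κ₂ C0 : ℝ} (hC0 : 0 < C0) (hS : Sand E af φ w κ₁ κ₂ C0) (hE : Measurable E) : Cx2 E af φ :=
  ⟨Ctx.of ha ha0 hw hC0 hS hE, fun _ _ _ hc hcd hB => l2_dil ha ha0 hw hC0 hS hE hc hcd hB⟩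

lemma Udl_cont (af : ℕ → ℝ) (φ : ℝ) (a b : ℕ → ℝ) (n M : ℕ) : Continuous fun y => U af φ (dl a b n y) M :=
  (U_cont af φ M).comp (dl_cont a b n)

lemma dl_meas (hE : Measurable E) (n : ℕ) : Measurable fun y => E (dl a b n y) :=
  hE.comp (dl_cont a b n).measurable

/-- the second moment over a dyadic block, for slowly growing degree -/
lemma blk_sq' (h : DS a δ) (b : ℕ → ℝ) (hcd : c ≤ d) {af : ℕ → ℝ} {Cs : ℝ} (hCs : 1 ≤ Cs)
    (hAA : ∀ M : ℕ, AA af M ≤ Cs * (M:ℝ) ^ 2) (φ : ℝ) {q : ℕ} (hq : 48 ≤ q) :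
    ∃ C : ℝ, 0 < C ∧ ∀ j : ℕ,
      ∫ y in c..d, ‖((2:ℝ) ^ j : ℂ)⁻¹ * ∑ n ∈ Finset.Ico (2 ^ j) (2 ^ (j + 1)),
        (((U af φ (dl a b n y) (2 ^ (j / q)) : ℝ) : ℂ) ^ 2 - ZZ af φ 2 (2 ^ (j / q)))‖ ^ 2 ≤ C * (3 / 4) ^ j := by
  have hδ := h.dpos
  have hdc : 0 ≤ d - c := by linarith
  refine ⟨Cs ^ 4 * (4 * ((d - c) + 2 * 81 / δ)), by positivity, ?_⟩
  intro j
  set M : ℕ := 2 ^ (j / q) with hM
  have hM1 : (1:ℝ) ≤ M := by
    rw [hM]
    push_cast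
    exact one_le_pow₀ (by norm_num)
  have hM0 : (0:ℝ) < M := by linarith
  have h1 := pow_sq' h b hcd af φ 2 M (2 ^ j) (2 ^ j)
  have e0 : 2 ^ j + 2 ^ j = 2 ^ (j + 1) := by rw [pow_succ]; ring
  rw [e0] at h1
  have hnorm : ∀ z : ℂ, ‖((2:ℝ) ^ j : ℂ)⁻¹ * z‖ ^ 2 = ((2:ℝ) ^ j * 2 ^ j)⁻¹ * ‖z‖ ^ 2 := by
    intro z
    rw [norm_mul, mul_pow, norm_inv, norm_pow, Complex.norm_real, Real.norm_eq_abs, abs_of_pos (by norm_num : (0:ℝ) < 2),
      inv_pow, sq]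
  simp only [hnorm]
  rw [intervalIntegral.integral_const_mul]
  have hlog : Real.log ((2 ^ j : ℕ) : ℝ) ≤ j := by
    push_cast
    rw [Real.log_pow]
    have h2 : Real.log 2 ≤ 1 := by
      have := Real.log_two_lt_d9
      linarith
    have : (0:ℝ) ≤ j := Nat.cast_nonneg j
    nlinarith
  have hlog0 : 0 ≤ Real.log ((2 ^ j : ℕ) : ℝ) := Real.log_natCast_nonneg _
  have hj1 : 1 + (j:ℝ) ≤ 4 * (5 / 4) ^ j := by
    have h2 := one_add_mul_le_pow (show (-2:ℝ) ≤ 1 / 4 by norm_num) j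
    have h3 : (1 + 1 / 4 : ℝ) = 5 / 4 := by norm_num
    rw [h3] at h2
    have : (0:ℝ) ≤ j := Nat.cast_nonneg j
    linarith
  have hM12 : (M:ℝ) ^ 12 ≤ (6 / 5) ^ j := by
    have h2 : ((M:ℝ) ^ 12) ^ 4 ≤ (((6 / 5 : ℝ)) ^ j) ^ 4 := by
      rw [← pow_mul, ← pow_mul, mul_comm j 4, pow_mul (6/5 : ℝ) 4 j, hM]
      push_cast
      rw [← pow_mul]
      calc (2:ℝ) ^ (j / q * (12 * 4)) ≤ 2 ^ j := by
            apply pow_le_pow_right₀ (by norm_num)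
            calc j / q * (12 * 4) ≤ j / q * q := Nat.mul_le_mul_left _ (by omega)
              _ ≤ j := Nat.div_mul_le_self j q
        _ ≤ _ := pow_le_pow_left₀ (by norm_num) (by norm_num) j
    exact (pow_le_pow_iff_left₀ (by positivity) (by positivity) (by norm_num)).mp h2
  have hAA2 : AA af M ^ 2 * AA af M ^ 2 ≤ Cs ^ 4 * (M:ℝ) ^ 8 := by
    have h3 : AA af M ^ 4 ≤ (Cs * (M:ℝ) ^ 2) ^ 4 := pow_le_pow_left₀ (AA_nonneg _ _) (hAA M) _
    calc AA af M ^ 2 * AA af M ^ 2 = AA af M ^ 4 := by ring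
      _ ≤ _ := h3
      _ = _ := by ring
  have hgap : ((2 * M + 1 : ℕ) : ℝ) ^ (2 ^ 2) ≤ 81 * (M:ℝ) ^ 4 := by
    push_cast
    calc (2 * (M:ℝ) + 1) ^ (2 ^ 2) ≤ (3 * (M:ℝ)) ^ (2 ^ 2) := pow_le_pow_left₀ (by positivity) (by linarith) _
      _ = _ := by ring
  have hM4 : (1:ℝ) ≤ (M:ℝ) ^ 4 := one_le_pow₀ hM1
  have hinner : ((2 ^ j : ℕ) : ℝ) * (d - c) + ((2 ^ j : ℕ) : ℝ) * (2 * (1 + Real.log ((2 ^ j : ℕ) : ℝ))) / δ *
      ((2 * M + 1 : ℕ) : ℝ) ^ (2 ^ 2) ≤ (2:ℝ) ^ j * (((d - c) + 2 * 81 / δ) * ((1 + (j:ℝ)) * (M:ℝ) ^ 4)) := by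
    have h2j : (0:ℝ) < 2 ^ j := by positivity
    have hj0 : (0:ℝ) ≤ j := Nat.cast_nonneg j
    have h3 : ((2 ^ j : ℕ) : ℝ) = 2 ^ j := by push_cast; rfl
    have g1 : (d - c) ≤ (d - c) * ((1 + (j:ℝ)) * (M:ℝ) ^ 4) := by
      apply le_mul_of_one_le_right hdc
      nlinarith
    have g2 : (2 * (1 + Real.log ((2 ^ j : ℕ) : ℝ))) / δ * ((2 * M + 1 : ℕ) : ℝ) ^ (2 ^ 2) ≤
        2 * 81 / δ * ((1 + (j:ℝ)) * (M:ℝ) ^ 4) := by
      calc (2 * (1 + Real.log ((2 ^ j : ℕ) : ℝ))) / δ * ((2 * M + 1 : ℕ) : ℝ) ^ (2 ^ 2)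
          ≤ (2 * (1 + (j:ℝ))) / δ * (81 * (M:ℝ) ^ 4) := by
            apply mul_le_mul _ hgap (by positivity) (by positivity)
            apply div_le_div_of_nonneg_right _ hδ.le
            linarith
        _ = _ := by ring
    rw [h3] at g2 ⊢
    calc (2:ℝ) ^ j * (d - c) + (2:ℝ) ^ j * (2 * (1 + Real.log ((2:ℝ) ^ j))) / δ * ((2 * M + 1 : ℕ) : ℝ) ^ (2 ^ 2)
        = (2:ℝ) ^ j * ((d - c) + (2 * (1 + Real.log ((2:ℝ) ^ j))) / δ * ((2 * M + 1 : ℕ) : ℝ) ^ (2 ^ 2)) := by ring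
      _ ≤ (2:ℝ) ^ j * ((d - c) * ((1 + (j:ℝ)) * (M:ℝ) ^ 4) + 2 * 81 / δ * ((1 + (j:ℝ)) * (M:ℝ) ^ 4)) :=
          mul_le_mul_of_nonneg_left (add_le_add g1 g2) h2j.le
      _ = _ := by ring
  have hX0 : 0 ≤ ((2 ^ j : ℕ) : ℝ) * (d - c) + ((2 ^ j : ℕ) : ℝ) * (2 * (1 + Real.log ((2 ^ j : ℕ) : ℝ))) / δ *
      ((2 * M + 1 : ℕ) : ℝ) ^ (2 ^ 2) := by positivity
  calc ((2:ℝ) ^ j * 2 ^ j)⁻¹ * ∫ y in c..d, ‖∑ n ∈ Finset.Ico (2 ^ j) (2 ^ (j + 1)),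
        (((U af φ (dl a b n y) M : ℝ) : ℂ) ^ 2 - ZZ af φ 2 M)‖ ^ 2
      ≤ ((2:ℝ) ^ j * 2 ^ j)⁻¹ * (AA af M ^ 2 * (AA af M ^ 2 * (((2 ^ j : ℕ) : ℝ) * (d - c) +
        ((2 ^ j : ℕ) : ℝ) * (2 * (1 + Real.log ((2 ^ j : ℕ) : ℝ))) / δ * ((2 * M + 1 : ℕ) : ℝ) ^ (2 ^ 2)))) :=
        mul_le_mul_of_nonneg_left h1 (by positivity)
    _ = ((2:ℝ) ^ j * 2 ^ j)⁻¹ * ((AA af M ^ 2 * AA af M ^ 2) * (((2 ^ j : ℕ) : ℝ) * (d - c) +
        ((2 ^ j : ℕ) : ℝ) * (2 * (1 + Real.log ((2 ^ j : ℕ) : ℝ))) / δ * ((2 * M + 1 : ℕ) : ℝ) ^ (2 ^ 2))) := by ring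
    _ ≤ ((2:ℝ) ^ j * 2 ^ j)⁻¹ * ((Cs ^ 4 * (M:ℝ) ^ 8) *
        ((2:ℝ) ^ j * (((d - c) + 2 * 81 / δ) * ((1 + (j:ℝ)) * (M:ℝ) ^ 4)))) := by
        apply mul_le_mul_of_nonneg_left _ (by positivity)
        exact mul_le_mul hAA2 hinner hX0 (by positivity)
    _ = Cs ^ 4 * ((d - c) + 2 * 81 / δ) * ((2:ℝ) ^ j)⁻¹ * ((1 + (j:ℝ)) * (M:ℝ) ^ 12) := by
        field_simp
    _ ≤ Cs ^ 4 * ((d - c) + 2 * 81 / δ) * ((2:ℝ) ^ j)⁻¹ * ((4 * (5 / 4) ^ j) * (6 / 5) ^ j) := by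
        apply mul_le_mul_of_nonneg_left _ (by positivity)
        exact mul_le_mul hj1 hM12 (by positivity) (by positivity)
    _ = Cs ^ 4 * (4 * ((d - c) + 2 * 81 / δ)) * (((2:ℝ) ^ j)⁻¹ * ((5 / 4) ^ j * (6 / 5) ^ j)) := by ring
    _ = _ := by
        rw [← mul_pow, ← inv_pow, ← mul_pow]
        norm_num

/-- consequence of `blk_sq'` -/
lemma ae_blk' (h : DS a δ) (b : ℕ → ℝ) (hcd : c ≤ d) {af : ℕ → ℝ} {Cs : ℝ} (hCs : 1 ≤ Cs)
    (hAA : ∀ M : ℕ, AA af M ≤ Cs * (M:ℝ) ^ 2) (φ : ℝ) {q : ℕ} (hq : 48 ≤ q) :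
    ∀ᵐ y ∂(volume.restrict (Icc c d)), ∀ ε : ℝ, 0 < ε → ∀ᶠ j : ℕ in atTop, ‖((∑ n ∈ Finset.Ico (2 ^ j) (2 ^ (j + 1)),
      (U af φ (dl a b n y) (2 ^ (j / q))) ^ 2 : ℝ) : ℂ)‖ ≤ (‖ZZ af φ 2 (2 ^ (j / q))‖ + ε) * 2 ^ j := by
  obtain ⟨C, hC, hb⟩ := blk_sq' h b hcd hCs hAA φ hq
  have hcont : ∀ (j : ℕ), Continuous fun y => ‖((2:ℝ) ^ j : ℂ)⁻¹ * ∑ n ∈ Finset.Ico (2 ^ j) (2 ^ (j + 1)),
      (((U af φ (dl a b n y) (2 ^ (j / q)) : ℝ) : ℂ) ^ 2 - ZZ af φ 2 (2 ^ (j / q)))‖ ^ 2 := by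
    intro j
    refine ((continuous_const.mul (continuous_finsetSum _ fun n _ => ?_)).norm).pow 2
    exact ((Complex.continuous_ofReal.comp (Udl_cont af φ a b n _)).pow 2).sub continuous_const
  have h1 := ae_zero' hcd hcont (geo_summable C) (j0 := 0) (fun j _ => hb j) (fun _ _ => sq_nonneg _)
  filter_upwards [h1] with y hy ε hε
  have h2 := tendsto_of_sq hy
  filter_upwards [h2.eventually (gt_mem_nhds hε)] with j hj
  have h3 : (0:ℝ) < 2 ^ j := by positivity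
  have h4 : ‖∑ n ∈ Finset.Ico (2 ^ j) (2 ^ (j + 1)),
      (((U af φ (dl a b n y) (2 ^ (j / q)) : ℝ) : ℂ) ^ 2 - ZZ af φ 2 (2 ^ (j / q)))‖ ≤ ε * 2 ^ j := by
    rw [norm_mul, norm_inv, norm_pow, Complex.norm_real, Real.norm_eq_abs, abs_of_pos (by norm_num : (0:ℝ) < 2)] at hj
    rw [inv_mul_lt_iff₀ h3] at hj
    linarith
  have h5 : ((∑ n ∈ Finset.Ico (2 ^ j) (2 ^ (j + 1)), (U af φ (dl a b n y) (2 ^ (j / q))) ^ 2 : ℝ) : ℂ) =
      (∑ n ∈ Finset.Ico (2 ^ j) (2 ^ (j + 1)),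
      (((U af φ (dl a b n y) (2 ^ (j / q)) : ℝ) : ℂ) ^ 2 - ZZ af φ 2 (2 ^ (j / q)))) + (2 ^ j : ℂ) * ZZ af φ 2 (2 ^ (j / q)) := by
    rw [Finset.sum_sub_distrib, Finset.sum_const, card_blk, nsmul_eq_mul]
    push_cast
    ring
  rw [h5]
  refine (norm_add_le _ _).trans ?_
  rw [norm_mul, norm_pow]
  have h6 : ‖(2:ℂ)‖ = 2 := by simp
  rw [h6]
  linarith

/-- approximation of the model polynomials of small degree by a fixed one -/
lemma ae_fix' (hX : Cx2 E af φ) (h : DS a δ) (b : ℕ → ℝ) (hcd : c ≤ d) {q : ℕ} (hq : 48 ≤ q) :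
    ∃ C : ℝ, 0 < C ∧ ∀ K : ℕ, 1 ≤ K → ∀ᵐ y ∂(volume.restrict (Icc c d)), ∀ ε : ℝ, 0 < ε → ∀ᶠ j : ℕ in atTop,
      ∑ n ∈ Finset.Ico (2 ^ j) (2 ^ (j + 1)), (U af φ (dl a b n y) (2 ^ (j / q)) - U af φ (dl a b n y) K) ^ 2 ≤
        (C * (K:ℝ) ^ (-(1/200):ℝ) + ε) * 2 ^ j := by
  obtain ⟨Cs, hCs, hAA⟩ := AA_le hX.ctx.bd
  have hsq : Sq (fun n => (n:ℝ) + 1) (fun _ => 1) 1 := ⟨one_pos, le_rfl, fun n => by
    have : (0:ℝ) ≤ n := Nat.cast_nonneg n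
    linarith, fun n => by push_cast; linarith, fun _ => one_pos, monotone_const⟩
  obtain ⟨C, hC, hZ⟩ := zz_cut hX.ctx hsq (c := 1) (d := 2) one_pos (by norm_num)
  refine ⟨C, hC, fun K hK => ?_⟩
  filter_upwards [ae_blk' h b hcd hCs (fun M => (AA_cut K M).trans (hAA M)) φ (q := q) hq] with y hy ε hε
  have hKj : ∀ᶠ j : ℕ in atTop, K ≤ 2 ^ (j / q) := by
    filter_upwards [eventually_ge_atTop (K * q)] with j hj
    have : K ≤ j / q := (Nat.le_div_iff_mul_le (by omega)).mpr hj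
    exact this.trans (Nat.lt_two_pow_self).le
  filter_upwards [hy ε hε, hKj] with j hj hKj
  rw [Complex.norm_real] at hj
  have h1 := (Real.le_norm_self _).trans hj
  have h2 : ∑ n ∈ Finset.Ico (2 ^ j) (2 ^ (j + 1)), (U af φ (dl a b n y) (2 ^ (j / q)) - U af φ (dl a b n y) K) ^ 2 =
      ∑ n ∈ Finset.Ico (2 ^ j) (2 ^ (j + 1)), (U (cutc af K) φ (dl a b n y) (2 ^ (j / q))) ^ 2 := by
    apply Finset.sum_congr rfl
    intro n _
    rw [U_cut hKj]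
  rw [h2]
  refine h1.trans ?_
  apply mul_le_mul_of_nonneg_right _ (by positivity)
  have := hZ K _ hK hKj
  linarith

/-- the error term is approximated by the model polynomials of large degree -/
lemma ae_err' (hX : Cx2 E af φ) (h : DS a δ) {B : ℝ} (hB : 0 ≤ B) (hb : ∀ n, 0 ≤ b n ∧ b n ≤ B * a n) (hc : 0 < c)
    (hcd : c ≤ d) : ∀ᵐ y ∂(volume.restrict (Icc c d)),
      Tendsto (fun j : ℕ => (∑ n ∈ Finset.Ico (2 ^ j) (2 ^ (j + 1)),
        (E (dl a b n y) - U af φ (dl a b n y) (2 ^ (j / 400))) ^ 2) / 2 ^ j) atTop (𝓝 0) := by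
  obtain ⟨C, hC, ρ, hρ, hl⟩ := hX.l2 c d B hc hcd hB
  have hδ := h.dpos
  have hm : ∀ j : ℕ, ∀ n, Measurable fun y => (E (dl a b n y) - U af φ (dl a b n y) (2 ^ (j / 400))) ^ 2 := fun j n =>
    ((dl_meas hX.ctx.meas n).sub (Udl_cont af φ a b n _).measurable).pow_const 2
  obtain ⟨j1, hj1⟩ : ∃ j1 : ℕ, ρ + 2 ≤ c * δ * 2 ^ j1 := by
    obtain ⟨j1, hj1⟩ := pow_unbounded_of_one_lt ((ρ + 2) / (c * δ)) (show (1:ℝ) < 2 by norm_num)
    refine ⟨j1, ?_⟩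
    rw [div_lt_iff₀ (by positivity)] at hj1
    linarith
  refine ae_zero (μ := volume.restrict (Icc c d)) (fun j => (Finset.measurable_sum _ fun n _ => hm j n).div_const _)
    (deg_summable (q := 400) (by norm_num) C) (j0 := 2 * j1) ?_ ?_
  · intro j hj
    have hj2 : c * δ * 2 ^ j1 ≤ c * δ * 2 ^ j := by
      apply mul_le_mul_of_nonneg_left _ (by positivity)
      exact pow_le_pow_right₀ (by norm_num) (by omega)
    have hn : ∀ n ∈ Finset.Ico (2 ^ j) (2 ^ (j + 1)), ρ ≤ c * a n ∧ ((2 ^ (j / 400) : ℕ) : ℝ) ^ 100 ≤ c * a n / 2 := by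
      intro n hn
      rw [Finset.mem_Ico] at hn
      have h1 := h.low n
      have h2 : (2:ℝ) ^ j ≤ n := by exact_mod_cast hn.1
      have h3 : δ * 2 ^ j ≤ a n := by
        refine le_trans ?_ h1
        apply mul_le_mul_of_nonneg_left _ hδ.le
        linarith
      have h4 : c * (δ * 2 ^ j) ≤ c * a n := mul_le_mul_of_nonneg_left h3 hc.le
      refine ⟨by linarith, ?_⟩
      have h5 : ((2 ^ (j / 400) : ℕ) : ℝ) ^ 100 * 2 ^ j1 ≤ 2 ^ j := by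
        push_cast
        rw [← pow_mul, ← pow_add]
        apply pow_le_pow_right₀ (by norm_num)
        omega
      have h6 : (0:ℝ) < 2 ^ j1 := by positivity
      have h7 : 2 ≤ c * δ * 2 ^ j1 := by linarith
      have h8 : (0:ℝ) ≤ ((2 ^ (j / 400) : ℕ) : ℝ) ^ 100 := by positivity
      have h9 : 0 < c * δ := by positivity
      -- 2 M^100 ≤ c δ 2^j1 M^100 ≤ c δ 2^j
      have h10 : 2 * ((2 ^ (j / 400) : ℕ) : ℝ) ^ 100 ≤ c * δ * 2 ^ j := by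
        calc 2 * ((2 ^ (j / 400) : ℕ) : ℝ) ^ 100 ≤ (c * δ * 2 ^ j1) * ((2 ^ (j / 400) : ℕ) : ℝ) ^ 100 :=
              mul_le_mul_of_nonneg_right h7 h8
          _ = c * δ * (((2 ^ (j / 400) : ℕ) : ℝ) ^ 100 * 2 ^ j1) := by ring
          _ ≤ _ := mul_le_mul_of_nonneg_left h5 h9.le
      linarith
    have h2j : (0:ℝ) < 2 ^ j := by positivity
    have e1 : ∀ y, ENNReal.ofReal ((∑ n ∈ Finset.Ico (2 ^ j) (2 ^ (j + 1)),
        (E (dl a b n y) - U af φ (dl a b n y) (2 ^ (j / 400))) ^ 2) / 2 ^ j) =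
        ENNReal.ofReal (1 / 2 ^ j) * ∑ n ∈ Finset.Ico (2 ^ j) (2 ^ (j + 1)),
          ENNReal.ofReal ((E (dl a b n y) - U af φ (dl a b n y) (2 ^ (j / 400))) ^ 2) := by
      intro y
      rw [← ENNReal.ofReal_sum_of_nonneg (fun _ _ => sq_nonneg _), ← ENNReal.ofReal_mul (by positivity)]
      congr 1
      ring
    simp_rw [e1]
    rw [lintegral_const_mul' _ _ ENNReal.ofReal_ne_top, lintegral_finsetSum _ (fun n _ => (hm j n).ennreal_ofReal)]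
    have h3 : ∀ n ∈ Finset.Ico (2 ^ j) (2 ^ (j + 1)),
        ∫⁻ y in Icc c d, ENNReal.ofReal ((E (dl a b n y) - U af φ (dl a b n y) (2 ^ (j / 400))) ^ 2) ≤
          ENNReal.ofReal (C * ((2 ^ (j / 400) : ℕ) : ℝ) ^ (-(1/200):ℝ)) := by
      intro n hn'
      obtain ⟨g1, g2⟩ := hn n hn'
      have g3 : 0 < a n := by
        have := h.low n
        have h5 : (0:ℝ) ≤ n := Nat.cast_nonneg n
        have : 0 < δ * (n + 1) := by positivity
        linarith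
      exact hl (a n) (b n) g3 (hb n).1 (hb n).2 g1 (2 ^ (j / 400)) Nat.one_le_two_pow g2
    calc ENNReal.ofReal (1 / 2 ^ j) * ∑ n ∈ Finset.Ico (2 ^ j) (2 ^ (j + 1)),
          ∫⁻ y in Icc c d, ENNReal.ofReal ((E (dl a b n y) - U af φ (dl a b n y) (2 ^ (j / 400))) ^ 2)
        ≤ ENNReal.ofReal (1 / 2 ^ j) * ∑ _n ∈ Finset.Ico (2 ^ j) (2 ^ (j + 1)),
          ENNReal.ofReal (C * ((2 ^ (j / 400) : ℕ) : ℝ) ^ (-(1/200):ℝ)) := by
          gcongr with n hn'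
          exact h3 n hn'
      _ = ENNReal.ofReal (C * ((2 ^ (j / 400) : ℕ) : ℝ) ^ (-(1/200):ℝ)) := by
          rw [Finset.sum_const, card_blk, nsmul_eq_mul, ← ENNReal.ofReal_natCast, ← mul_assoc,
            ← ENNReal.ofReal_mul (by positivity)]
          have : 1 / (2:ℝ) ^ j * ((2 ^ j : ℕ) : ℝ) = 1 := by
            push_cast
            field_simp
          rw [this, ENNReal.ofReal_one, one_mul]
      _ ≤ _ := by
          apply ENNReal.ofReal_le_ofReal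
          apply mul_le_mul_of_nonneg_left _ hC.le
          refine le_trans ?_ (deg_le (q := 400) (by norm_num) j)
          apply Real.rpow_le_rpow_of_exponent_le
          · exact_mod_cast Nat.one_le_two_pow
          · norm_num
  · intro j y
    exact div_nonneg (Finset.sum_nonneg fun n _ => sq_nonneg _) (by positivity)

/-- approximation by fixed model polynomials -/
theorem good2' (hX : Cx2 E af φ) (h : DS a δ) {B : ℝ} (hB : 0 ≤ B) (hb : ∀ n, 0 ≤ b n ∧ b n ≤ B * a n) (hc : 0 < c)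
    (hcd : c ≤ d) :
    ∀ᵐ y ∂(volume.restrict (Icc c d)), ∀ ε : ℝ, 0 < ε → ∀ᶠ K : ℕ in atTop, ∀ᶠ N : ℕ in atTop,
      ∑ n ∈ Finset.range N, (E (dl a b n y) - U af φ (dl a b n y) K) ^ 2 ≤ ε * N := by
  obtain ⟨C, hC, hfix⟩ := ae_fix' hX h b hcd (q := 400) (by norm_num)
  have hfix' : ∀ᵐ y ∂(volume.restrict (Icc c d)), ∀ K : ℕ, 1 ≤ K → ∀ ε : ℝ, 0 < ε → ∀ᶠ j : ℕ in atTop,
      ∑ n ∈ Finset.Ico (2 ^ j) (2 ^ (j + 1)), (U af φ (dl a b n y) (2 ^ (j / 400)) - U af φ (dl a b n y) K) ^ 2 ≤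
        (C * (K:ℝ) ^ (-(1/200):ℝ) + ε) * 2 ^ j := by
    rw [ae_all_iff]
    intro K
    by_cases hK : 1 ≤ K
    · filter_upwards [hfix K hK] with y hy _
      exact hy
    · exact Eventually.of_forall fun y h0 => absurd h0 hK
  filter_upwards [ae_err' hX h hB hb hc hcd, hfix'] with y h1 h3 ε hε
  set η := ε / 16 with hη
  have hη0 : 0 < η := by positivity
  have hCK : ∀ᶠ K : ℕ in atTop, C * (K:ℝ) ^ (-(1/200):ℝ) < η := by
    have g1 : Tendsto (fun K : ℕ => C * (K:ℝ) ^ (-(1/200):ℝ)) atTop (𝓝 (C * 0)) :=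
      ((tendsto_rpow_neg_atTop (by norm_num : (0:ℝ) < 1/200)).comp tendsto_natCast_atTop_atTop).const_mul C
    rw [mul_zero] at g1
    exact g1.eventually (gt_mem_nhds hη0)
  filter_upwards [hCK, eventually_ge_atTop 1] with K hK hK1
  have h4 := h3 K hK1 η hη0
  have hces := ces (h := fun n => (E (dl a b n y) - U af φ (dl a b n y) K) ^ 2) (fun n => sq_nonneg _)
    (L := 2 * (η + 2 * η)) (by positivity) ?_ (ε / 4) (by positivity)
  · filter_upwards [hces] with N hN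
    refine hN.trans ?_
    apply mul_le_mul_of_nonneg_right _ (Nat.cast_nonneg N)
    linarith
  · filter_upwards [blk_div h1 hη0, h4] with j g1 g3
    set X : ℕ → ℝ := fun n => E (dl a b n y) - U af φ (dl a b n y) (2 ^ (j / 400)) with hXd
    set Z : ℕ → ℝ := fun n => U af φ (dl a b n y) (2 ^ (j / 400)) - U af φ (dl a b n y) K with hZd
    have e1 : ∀ n, E (dl a b n y) - U af φ (dl a b n y) K = X n + Z n := by
      intro n; simp only [hXd, hZd]; ring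
    calc ∑ n ∈ Finset.Ico (2 ^ j) (2 ^ (j + 1)), (E (dl a b n y) - U af φ (dl a b n y) K) ^ 2
        ≤ ∑ n ∈ Finset.Ico (2 ^ j) (2 ^ (j + 1)), 2 * ((X n) ^ 2 + (Z n) ^ 2) := by
          apply Finset.sum_le_sum
          intro n _
          rw [e1]
          nlinarith [sq_nonneg (X n - Z n)]
      _ = 2 * (∑ n ∈ Finset.Ico (2 ^ j) (2 ^ (j + 1)), (X n) ^ 2 + ∑ n ∈ Finset.Ico (2 ^ j) (2 ^ (j + 1)), (Z n) ^ 2) := by
          rw [← Finset.mul_sum, Finset.sum_add_distrib]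
      _ ≤ 2 * (η * (2:ℝ) ^ j + (η + η) * 2 ^ j) := by
          gcongr
          refine g3.trans ?_
          gcongr
      _ = _ := by ring

end Run7.h113.MT
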