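import Mathlib
import Pool.Agent.Run7.h113.MT.Blk

/-!
The joint law along dilated sequences.
-/

set_option autoImplicit false

open MeasureTheory Filter Topology Set Real
open scoped ENNReal
open Pool.Agent.H469R2.NK (e norm_e e_add conj_e e_zero)
open Pool.Agent.H383.Gen (U Bd)
open Pool.Agent.H383.GW (Wt Sand)
open Pool.Agent.Y969.TM
open Pool.Agent.R306.GP

namespace Run7.h113.MT

variable {af : ℕ → ℝ} {φ : ℝ} {E : ℝ → ℝ} {δ B : ℝ} {k : ℕ} {a b : Fin k → ℕ → ℝ}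

open Classical in
/-- the mixed moments of the model polynomials -/
theorem mixed' (h : ∀ j, DS (a j) δ) (b : Fin k → ℕ → ℝ) (af : ℕ → ℝ) (φ : ℝ) :
    ∀ᵐ α : Fin k → ℝ, (∀ j, 0 < α j) → ∀ (p : Fin k → ℕ) (K : ℕ),
    Tendsto (fun N : ℕ => (∑ n ∈ Finset.range N, ∏ j : Fin k, ((U af φ (dl (a j) (b j) n (α j)) K : ℝ) : ℂ) ^ (p j)) / (N:ℂ)) atTop
      (𝓝 (∏ j, ZZ af φ (p j) K)) := by
  -- almost everywhere for the countably many frequencies
  have key : ∀ᵐ α : Fin k → ℝ, ∀ (p : Fin k → ℕ) (K : ℕ), (∀ j, 0 < α j) →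
      ∀ x ∈ Fintype.piFinset (fun j : Fin k => TT (p j) K), (∃ j, ∑ i, fq (x j i) ≠ 0) →
      Tendsto (fun N : ℕ => (∑ n ∈ Finset.range N, e (∑ j, (∑ i, fq (x j i)) * (α j * a j n + b j n))) / (N:ℂ)) atTop (𝓝 0) := by
    rw [ae_all_iff]
    intro p
    rw [ae_all_iff]
    intro K
    have h1 : ∀ᵐ α : Fin k → ℝ, ∀ x : (Fintype.piFinset (fun j : Fin k => TT (p j) K)), (∀ j, 0 < α j) →
        (∃ j, ∑ i, fq (x.1 j i) ≠ 0) →
        Tendsto (fun N : ℕ => (∑ n ∈ Finset.range N, e (∑ j, (∑ i, fq (x.1 j i)) * (α j * a j n + b j n))) / (N:ℂ))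
          atTop (𝓝 0) := by
      rw [ae_all_iff]
      intro x
      by_cases hx : ∃ j, ∑ i, fq (x.1 j i) ≠ 0
      · obtain ⟨j0, hj0⟩ := hx
        filter_upwards [weyl_pi (b := b) h (F := fun j => ∑ i, fq (x.1 j i)) hj0] with α hα h0 _
        exact hα h0
      · exact Eventually.of_forall fun α _ h0 => absurd h0 hx
    filter_upwards [h1] with α hα hα0 x hx hP
    exact hα ⟨x, hx⟩ hα0 hP
  filter_upwards [key] with α hα hα0 p K
  have hexp : ∀ n : ℕ, ∏ j : Fin k, ((U af φ (dl (a j) (b j) n (α j)) K : ℝ) : ℂ) ^ (p j) =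
      ∑ x ∈ Fintype.piFinset (fun j : Fin k => TT (p j) K), (∏ j, ∏ i, cf af φ (x j i)) *
        e (∑ j, (∑ i, fq (x j i)) * (α j * a j n + b j n)) := by
    intro n
    simp only [U_pow]
    rw [Finset.prod_univ_sum]
    apply Finset.sum_congr rfl
    intro x _
    rw [Finset.prod_mul_distrib, ← e_sum]
    congr 2
    apply Finset.sum_congr rfl
    intro j _
    unfold dl
    ring
  have hlim : ∀ x ∈ Fintype.piFinset (fun j : Fin k => TT (p j) K),
      Tendsto (fun N : ℕ => (∑ n ∈ Finset.range N, e (∑ j, (∑ i, fq (x j i)) * (α j * a j n + b j n))) / (N:ℂ)) atTop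
        (𝓝 (∏ j, if ∑ i, fq (x j i) = 0 then (1:ℂ) else 0)) := by
    intro x hx
    by_cases hP : ∃ j, ∑ i, fq (x j i) ≠ 0
    · have h3 : (∏ j, if ∑ i, fq (x j i) = 0 then (1:ℂ) else 0) = 0 := by
        obtain ⟨j, hj⟩ := hP
        exact Finset.prod_eq_zero (Finset.mem_univ j) (if_neg hj)
      rw [h3]
      exact hα p K hα0 x hx hP
    · push Not at hP
      have h3 : (∏ j, if ∑ i, fq (x j i) = 0 then (1:ℂ) else 0) = 1 :=
        Finset.prod_eq_one fun j _ => if_pos (hP j)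
      rw [h3]
      refine tendsto_const_nhds.congr' ?_
      filter_upwards [eventually_ge_atTop 1] with N hN
      have hN0 : (N:ℂ) ≠ 0 := by
        have : N ≠ 0 := by omega
        exact_mod_cast this
      simp only [hP, zero_mul, Finset.sum_const_zero, e_zero, Finset.sum_const, Finset.card_range, nsmul_eq_mul, mul_one]
      rw [div_self hN0]
  have h6 : Tendsto (fun N : ℕ => ∑ x ∈ Fintype.piFinset (fun j : Fin k => TT (p j) K), (∏ j, ∏ i, cf af φ (x j i)) *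
      ((∑ n ∈ Finset.range N, e (∑ j, (∑ i, fq (x j i)) * (α j * a j n + b j n))) / (N:ℂ))) atTop
      (𝓝 (∑ x ∈ Fintype.piFinset (fun j : Fin k => TT (p j) K), (∏ j, ∏ i, cf af φ (x j i)) *
        (∏ j, if ∑ i, fq (x j i) = 0 then (1:ℂ) else 0))) :=
    tendsto_finsetSum _ fun x hx => (hlim x hx).const_mul _
  have h7 : ∑ x ∈ Fintype.piFinset (fun j : Fin k => TT (p j) K), (∏ j, ∏ i, cf af φ (x j i)) *
        (∏ j, if ∑ i, fq (x j i) = 0 then (1:ℂ) else 0) = ∏ j, ZZ af φ (p j) K := by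
    simp only [← Finset.prod_mul_distrib]
    rw [← Finset.prod_univ_sum (fun j : Fin k => TT (p j) K)
      (fun j (η : Fin (p j) → ℕ × Bool) => (∏ i, cf af φ (η i)) * (if ∑ i, fq (η i) = 0 then (1:ℂ) else 0))]
    apply Finset.prod_congr rfl
    intro j _
    unfold ZZ
    rw [Finset.sum_filter]
    apply Finset.sum_congr rfl
    intro η _
    split_ifs <;> simp
  rw [h7] at h6
  refine h6.congr fun N => ?_
  simp only [hexp]
  rw [Finset.sum_comm, Finset.sum_div]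
  apply Finset.sum_congr rfl
  intro x _
  rw [← Finset.mul_sum, mul_div_assoc]

/-- the approximation for all coordinates -/
theorem good2_pi (hX : Cx2 E af φ) (h : ∀ j, DS (a j) δ) (hB : 0 ≤ B) (hb : ∀ j n, 0 ≤ b j n ∧ b j n ≤ B * a j n) :
    ∀ᵐ α : Fin k → ℝ, (∀ j, 0 < α j) → ∀ (j : Fin k), ∀ ε : ℝ, 0 < ε → ∀ᶠ K : ℕ in atTop, ∀ᶠ N : ℕ in atTop,
      ∑ n ∈ Finset.range N, (E (dl (a j) (b j) n (α j)) - U af φ (dl (a j) (b j) n (α j)) K) ^ 2 ≤ ε * N := by
  have h1 : ∀ᵐ α : Fin k → ℝ, ∀ j : Fin k, 0 < α j → ∀ ε : ℝ, 0 < ε → ∀ᶠ K : ℕ in atTop, ∀ᶠ N : ℕ in atTop,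
      ∑ n ∈ Finset.range N, (E (dl (a j) (b j) n (α j)) - U af φ (dl (a j) (b j) n (α j)) K) ^ 2 ≤ ε * N := by
    rw [ae_all_iff]
    intro j
    have h2 : ∀ᵐ y : ℝ, 0 < y → ∀ ε : ℝ, 0 < ε → ∀ᶠ K : ℕ in atTop, ∀ᶠ N : ℕ in atTop,
        ∑ n ∈ Finset.range N, (E (dl (a j) (b j) n y) - U af φ (dl (a j) (b j) n y) K) ^ 2 ≤ ε * N :=
      ae_pos fun c d hc hcd => good2' hX (h j) hB (hb j) hc hcd.le
    exact (Measure.quasiMeasurePreserving_eval (fun _ : Fin k => (volume : Measure ℝ)) j).ae h2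
  filter_upwards [h1] with α hα hα0 j
  exact hα j (hα0 j)

/-- uniform integrability -/
lemma unif_int {q : ℕ → Fin k → ℝ}
    (h2 : ∀ (j : Fin k), ∀ ε : ℝ, 0 < ε → ∀ᶠ K : ℕ in atTop, ∀ᶠ N : ℕ in atTop,
      ∑ n ∈ Finset.range N, (E (q n j) - U af φ (q n j) K) ^ 2 ≤ ε * N) :
    ∀ ε : ℝ, 0 < ε → ∃ T : ℝ, 1 ≤ T ∧ ∀ᶠ N : ℕ in atTop,
      ∑ n ∈ Finset.range N, (if T ≤ ‖(fun j => E (q n j))‖ then ‖(fun j => E (q n j))‖ ^ 2 else 0) ≤ ε * N := by
  intro ε hε
  have h3 : ∀ᶠ K : ℕ in atTop, ∀ j : Fin k, ∀ᶠ N : ℕ in atTop,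
      ∑ n ∈ Finset.range N, (E (q n j) - U af φ (q n j) K) ^ 2 ≤ (ε / (4 * (k + 1))) * N :=
    eventually_all.mpr fun j => h2 j _ (by positivity)
  obtain ⟨K, hK⟩ := h3.exists
  set A := AA af K with hA
  have hA0 : 0 ≤ A := AA_nonneg _ _
  refine ⟨2 * A + 1, by linarith, ?_⟩
  filter_upwards [eventually_all.mpr hK] with N hN
  have hpt : ∀ n, (if 2 * A + 1 ≤ ‖(fun j => E (q n j))‖ then ‖(fun j => E (q n j))‖ ^ 2 else 0) ≤
      4 * ∑ j : Fin k, (E (q n j) - U af φ (q n j) K) ^ 2 := by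
    intro n
    have hnn : 0 ≤ 4 * ∑ j : Fin k, (E (q n j) - U af φ (q n j) K) ^ 2 := by positivity
    split_ifs with h4
    · set X : Fin k → ℝ := fun j => E (q n j) with hX
      have hk : Nonempty (Fin k) := by
        by_contra hne
        have hk0 : k = 0 := by
          by_contra hne'
          exact hne ⟨⟨0, Nat.pos_of_ne_zero hne'⟩⟩
        subst hk0
        have h8 : ‖X‖ = 0 := by
          rw [norm_eq_zero]; exact Subsingleton.elim _ _
        rw [h8] at h4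
        linarith
      obtain ⟨j, hj⟩ := (Finite.exists_max fun j => ‖X j‖)
      have h8 : ‖X‖ ≤ ‖X j‖ := (pi_norm_le_iff_of_nonneg (norm_nonneg _)).mpr hj
      have h9 : ‖X j‖ ≤ 2 * |E (q n j) - U af φ (q n j) K| := by
        have h10 := abs_U_le' af φ (q n j) K
        have h11 : ‖X j‖ = |E (q n j)| := rfl
        have h12 : |E (q n j)| ≤ |E (q n j) - U af φ (q n j) K| + |U af φ (q n j) K| := by
          have := abs_add_le (E (q n j) - U af φ (q n j) K) (U af φ (q n j) K)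
          rwa [sub_add_cancel] at this
        rw [h11] at h8 ⊢
        linarith
      have h13 : ‖X‖ ^ 2 ≤ (2 * |E (q n j) - U af φ (q n j) K|) ^ 2 :=
        pow_le_pow_left₀ (norm_nonneg _) (h8.trans h9) 2
      have h14 : (E (q n j) - U af φ (q n j) K) ^ 2 ≤ ∑ j : Fin k, (E (q n j) - U af φ (q n j) K) ^ 2 :=
        Finset.single_le_sum (f := fun j => (E (q n j) - U af φ (q n j) K) ^ 2) (fun i _ => sq_nonneg _) (Finset.mem_univ j)
      rw [mul_pow, sq_abs] at h13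
      linarith
    · exact hnn
  refine (Finset.sum_le_sum fun n _ => hpt n).trans ?_
  rw [← Finset.mul_sum, Finset.sum_comm]
  have h5 : ∑ j : Fin k, ∑ n ∈ Finset.range N, (E (q n j) - U af φ (q n j) K) ^ 2 ≤
      ∑ _j : Fin k, (ε / (4 * (k + 1))) * N := Finset.sum_le_sum fun j _ => hN j
  rw [Finset.sum_const, Finset.card_univ, Fintype.card_fin, nsmul_eq_mul] at h5
  calc 4 * ∑ j : Fin k, ∑ n ∈ Finset.range N, (E (q n j) - U af φ (q n j) K) ^ 2
      ≤ 4 * ((k:ℝ) * ((ε / (4 * (k + 1))) * N)) := by linarith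
    _ = ε * N * ((k:ℝ) / (k + 1)) := by field_simp
    _ ≤ ε * N := by
        apply mul_le_of_le_one_right (by positivity)
        rw [div_le_one (by positivity)]
        linarith

/-- functions of quadratic growth -/
theorem quad_conv {X : ℕ → Fin k → ℝ} {ν : Measure (Fin k → ℝ)} [IsProbabilityMeasure ν]
    (hlaw : ∀ g : (Fin k → ℝ) → ℝ, Continuous g → (∃ B, ∀ x, |g x| ≤ B) →
      Tendsto (fun N : ℕ => (∑ n ∈ Finset.range N, g (X n)) / (N:ℝ)) atTop (𝓝 (∫ x, g x ∂ν)))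
    (hui : ∀ ε : ℝ, 0 < ε → ∃ T : ℝ, 1 ≤ T ∧ ∀ᶠ N : ℕ in atTop,
      ∑ n ∈ Finset.range N, (if T ≤ ‖X n‖ then ‖X n‖ ^ 2 else 0) ≤ ε * N)
    {f : (Fin k → ℝ) → ℝ} (hf : Continuous f) (hfg : ∃ C : ℝ, ∀ x, |f x| ≤ C * (1 + ‖x‖ ^ 2)) :
    Integrable f ν ∧ Tendsto (fun N : ℕ => (∑ n ∈ Finset.range N, f (X n)) / (N:ℝ)) atTop (𝓝 (∫ x, f x ∂ν)) := by
  obtain ⟨C, hC⟩ := hfg
  have hC0 : 0 ≤ C := by
    have h1 := hC 0
    have h2 := abs_nonneg (f 0)
    rw [norm_zero] at h1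
    linarith
  -- the tails of the second moment of the law
  have htl : ∀ ε : ℝ, 0 < ε → ∀ T : ℝ, 1 ≤ T → (∀ᶠ N : ℕ in atTop,
      ∑ n ∈ Finset.range N, (if T ≤ ‖X n‖ then ‖X n‖ ^ 2 else 0) ≤ ε * N) →
      ∫⁻ x, ENNReal.ofReal (‖x‖ ^ 2 * (1 - cut T x)) ∂ν ≤ ENNReal.ofReal ε := by
    intro ε hε T hT hN
    have hcx : Continuous fun x : Fin k → ℝ => ‖x‖ ^ 2 * (1 - cut T x) :=
      (continuous_norm.pow 2).mul (continuous_const.sub (cut_cont T))
    have hpos : ∀ x : Fin k → ℝ, 0 ≤ ‖x‖ ^ 2 * (1 - cut T x) := fun x =>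
      mul_nonneg (by positivity) (by linarith [cut_le_one T x])
    have hB : ∀ B : ℕ, ∫ x, min (‖x‖ ^ 2 * (1 - cut T x)) (B:ℝ) ∂ν ≤ ε := by
      intro B
      have h1 := hlaw (fun x => min (‖x‖ ^ 2 * (1 - cut T x)) (B:ℝ)) (hcx.min continuous_const) ⟨B, fun x => by
        rw [abs_of_nonneg (le_min (hpos x) (Nat.cast_nonneg B))]; exact min_le_right _ _⟩
      refine le_of_tendsto h1 ?_
      filter_upwards [hN, eventually_ge_atTop 1] with N hN hN1
      have hN0 : (0:ℝ) < N := by exact_mod_cast hN1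
      rw [div_le_iff₀ hN0]
      refine (Finset.sum_le_sum fun n _ => ?_).trans hN
      refine (min_le_left _ _).trans ?_
      split_ifs with h4
      · apply mul_le_of_le_one_right (by positivity)
        linarith [cut_nonneg T (X n)]
      · push Not at h4
        rw [cut_one h4.le, sub_self, mul_zero]
    have h2 : ∀ x : Fin k → ℝ, Tendsto (fun B : ℕ => ENNReal.ofReal (min (‖x‖ ^ 2 * (1 - cut T x)) (B:ℝ))) atTop
        (𝓝 (ENNReal.ofReal (‖x‖ ^ 2 * (1 - cut T x)))) := by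
      intro x
      obtain ⟨B0, hB0⟩ := exists_nat_ge (‖x‖ ^ 2 * (1 - cut T x))
      refine tendsto_const_nhds.congr' ?_
      filter_upwards [eventually_ge_atTop B0] with B hBB
      rw [min_eq_left (hB0.trans (by exact_mod_cast hBB))]
    have h3 : ∫⁻ x, ENNReal.ofReal (‖x‖ ^ 2 * (1 - cut T x)) ∂ν =
        ∫⁻ x, liminf (fun B : ℕ => ENNReal.ofReal (min (‖x‖ ^ 2 * (1 - cut T x)) (B:ℝ))) atTop ∂ν :=
      lintegral_congr fun x => ((h2 x).liminf_eq).symm
    rw [h3]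
    refine (lintegral_liminf_le fun B => ?_).trans ?_
    · exact (hcx.min continuous_const).measurable.ennreal_ofReal
    · refine liminf_le_of_le (by isBoundedDefault) ?_
      intro b hb
      obtain ⟨B, hB'⟩ := hb.exists
      refine hB'.trans ?_
      rw [← ofReal_integral_eq_lintegral_ofReal]
      · exact ENNReal.ofReal_le_ofReal (hB B)
      · refine Integrable.of_bound (hcx.min continuous_const).aestronglyMeasurable (B:ℝ) (Eventually.of_forall fun x => ?_)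
        rw [Real.norm_eq_abs, abs_of_nonneg (le_min (hpos x) (Nat.cast_nonneg B))]
        exact min_le_right _ _
      · exact Eventually.of_forall fun x => le_min (hpos x) (Nat.cast_nonneg B)
  -- the tail of `f`
  have htail : ∀ T : ℝ, 1 ≤ T → ∀ x : Fin k → ℝ, |f x - f x * cut T x| ≤ 2 * C * (‖x‖ ^ 2 * (1 - cut T x)) := by
    intro T hT x
    have e1 : f x - f x * cut T x = f x * (1 - cut T x) := by ring
    have h0 : 0 ≤ 1 - cut T x := by linarith [cut_le_one T x]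
    rw [e1, abs_mul, abs_of_nonneg h0]
    rcases le_total ‖x‖ T with hx | hx
    · rw [cut_one hx, sub_self, mul_zero, mul_zero, mul_zero]
    · have h1 : 1 ≤ ‖x‖ := hT.trans hx
      have h3 : (1:ℝ) ≤ ‖x‖ ^ 2 := one_le_pow₀ h1
      have h4 : |f x| ≤ 2 * C * ‖x‖ ^ 2 := by
        refine (hC x).trans ?_
        nlinarith
      calc |f x| * (1 - cut T x) ≤ (2 * C * ‖x‖ ^ 2) * (1 - cut T x) := mul_le_mul_of_nonneg_right h4 h0
        _ = _ := by ring
  -- integrability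
  have hmeas2 : ∀ T : ℝ, Continuous fun x : Fin k → ℝ => ‖x‖ ^ 2 * (1 - cut T x) := fun T =>
    (continuous_norm.pow 2).mul (continuous_const.sub (cut_cont T))
  have hint2 : ∀ ε : ℝ, 0 < ε → ∀ T : ℝ, 1 ≤ T → (∀ᶠ N : ℕ in atTop,
      ∑ n ∈ Finset.range N, (if T ≤ ‖X n‖ then ‖X n‖ ^ 2 else 0) ≤ ε * N) →
      Integrable (fun x : Fin k → ℝ => ‖x‖ ^ 2 * (1 - cut T x)) ν ∧ ∫ x, ‖x‖ ^ 2 * (1 - cut T x) ∂ν ≤ ε := by
    intro ε hε T hT hN
    have h1 := htl ε hε T hT hN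
    have hpos : ∀ x : Fin k → ℝ, 0 ≤ ‖x‖ ^ 2 * (1 - cut T x) := fun x =>
      mul_nonneg (by positivity) (by linarith [cut_le_one T x])
    have hi : Integrable (fun x : Fin k → ℝ => ‖x‖ ^ 2 * (1 - cut T x)) ν := by
      refine ⟨(hmeas2 T).aestronglyMeasurable, ?_⟩
      rw [hasFiniteIntegral_iff_ofReal (Eventually.of_forall hpos)]
      exact lt_of_le_of_lt h1 ENNReal.ofReal_lt_top
    refine ⟨hi, ?_⟩
    have h4 := ofReal_integral_eq_lintegral_ofReal hi (Eventually.of_forall hpos)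
    rw [← h4] at h1
    exact (ENNReal.ofReal_le_ofReal_iff hε.le).mp h1
  have hcutint : ∀ T : ℝ, 1 ≤ T → ∃ Bd : ℝ, ∀ x : Fin k → ℝ, |f x * cut T x| ≤ Bd := by
    intro T hT
    refine ⟨C * (1 + (T + 1) ^ 2), fun x => ?_⟩
    rw [abs_mul, abs_of_nonneg (cut_nonneg T x)]
    rcases le_total (T + 1) ‖x‖ with hx | hx
    · rw [cut_zero hx, mul_zero]
      positivity
    · calc |f x| * cut T x ≤ |f x| * 1 := mul_le_mul_of_nonneg_left (cut_le_one T x) (abs_nonneg _)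
        _ ≤ C * (1 + ‖x‖ ^ 2) := by rw [mul_one]; exact hC x
        _ ≤ _ := by gcongr
  have hfcut : ∀ T : ℝ, Continuous fun x : Fin k → ℝ => f x * cut T x := fun T => hf.mul (cut_cont T)
  have hfci : ∀ T : ℝ, 1 ≤ T → Integrable (fun x : Fin k → ℝ => f x * cut T x) ν := by
    intro T hT
    obtain ⟨Bd, hBd⟩ := hcutint T hT
    exact Integrable.of_bound (hfcut T).aestronglyMeasurable Bd (Eventually.of_forall hBd)
  have hfi : Integrable f ν := by
    obtain ⟨T, hT, hN⟩ := hui 1 one_pos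
    obtain ⟨h1, -⟩ := hint2 1 one_pos T hT hN
    have h2 : Integrable (fun x => f x - f x * cut T x) ν :=
      (h1.const_mul (2 * C)).mono' (hf.sub (hfcut T)).aestronglyMeasurable (Eventually.of_forall fun x => by
        rw [Real.norm_eq_abs]; exact htail T hT x)
    have h3 := h2.add (hfci T hT)
    refine h3.congr (Eventually.of_forall fun x => ?_)
    simp
  refine ⟨hfi, ?_⟩
  rw [Metric.tendsto_nhds]
  intro ε hε
  set η := ε / (4 * (2 * C + 1)) with hη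
  have hη0 : 0 < η := by positivity
  have hCη : 2 * C * η ≤ ε / 4 := by
    have : 2 * C * η = ε / 4 * (2 * C / (2 * C + 1)) := by rw [hη]; field_simp
    rw [this]
    apply mul_le_of_le_one_right (by positivity)
    rw [div_le_one (by positivity)]
    linarith
  obtain ⟨T, hT, hN⟩ := hui η hη0
  obtain ⟨h1, h2⟩ := hint2 η hη0 T hT hN
  have h3 := hlaw _ (hfcut T) (hcutint T hT)
  have h4 : |∫ x, f x ∂ν - ∫ x, f x * cut T x ∂ν| ≤ ε / 4 := by
    rw [← integral_sub hfi (hfci T hT)]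
    refine (abs_integral_le_integral_abs).trans ?_
    have h5 : ∫ x, |f x - f x * cut T x| ∂ν ≤ ∫ x, 2 * C * (‖x‖ ^ 2 * (1 - cut T x)) ∂ν :=
      integral_mono (hfi.sub (hfci T hT)).abs (h1.const_mul _) fun x => htail T hT x
    rw [integral_const_mul] at h5
    calc _ ≤ _ := h5
      _ ≤ 2 * C * η := mul_le_mul_of_nonneg_left h2 (by positivity)
      _ ≤ _ := hCη
  filter_upwards [(Metric.tendsto_nhds.mp h3) (ε / 4) (by positivity), hN, eventually_ge_atTop 1] with N g1 g2 g3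
  have hN0 : (0:ℝ) < N := by exact_mod_cast g3
  rw [Real.dist_eq] at g1 ⊢
  have h5 : |(∑ n ∈ Finset.range N, f (X n)) / (N:ℝ) - (∑ n ∈ Finset.range N, f (X n) * cut T (X n)) / (N:ℝ)| ≤ ε / 4 := by
    rw [← sub_div, ← Finset.sum_sub_distrib, abs_div, abs_of_pos hN0, div_le_iff₀ hN0]
    calc |∑ n ∈ Finset.range N, (f (X n) - f (X n) * cut T (X n))|
        ≤ ∑ n ∈ Finset.range N, 2 * C * (if T ≤ ‖X n‖ then ‖X n‖ ^ 2 else 0) := by
          refine (Finset.abs_sum_le_sum_abs _ _).trans (Finset.sum_le_sum fun n _ => ?_)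
          refine (htail T hT (X n)).trans ?_
          apply mul_le_mul_of_nonneg_left _ (by positivity)
          split_ifs with h6
          · apply mul_le_of_le_one_right (by positivity)
            linarith [cut_nonneg T (X n)]
          · push Not at h6
            rw [cut_one h6.le, sub_self, mul_zero]
      _ = 2 * C * ∑ n ∈ Finset.range N, (if T ≤ ‖X n‖ then ‖X n‖ ^ 2 else 0) := by rw [Finset.mul_sum]
      _ ≤ 2 * C * (η * N) := mul_le_mul_of_nonneg_left g2 (by positivity)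
      _ = (2 * C * η) * N := by ring
      _ ≤ _ := mul_le_mul_of_nonneg_right hCη hN0.le
  have e1 : (∑ n ∈ Finset.range N, f (X n)) / (N:ℝ) - ∫ x, f x ∂ν =
      ((∑ n ∈ Finset.range N, f (X n)) / (N:ℝ) - (∑ n ∈ Finset.range N, f (X n) * cut T (X n)) / (N:ℝ)) +
      ((∑ n ∈ Finset.range N, f (X n) * cut T (X n)) / (N:ℝ) - ∫ x, f x * cut T x ∂ν) +
      (∫ x, f x * cut T x ∂ν - ∫ x, f x ∂ν) := by ring
  rw [e1]
  rw [abs_sub_comm] at h4
  refine (abs_add_three _ _ _).trans_lt ?_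
  linarith

/-- **the joint law along dilated sequences** -/
theorem law_dil {μ : ProbabilityMeasure ℝ} (hX : Cx2 E af φ)
    (hμ : ∀ t : ℝ, Tendsto (fun K => mK af φ K t) atTop (𝓝 (charFun (μ : Measure ℝ) t)))
    (h : ∀ j, DS (a j) δ) (hB : 0 ≤ B) (hb : ∀ j n, 0 ≤ b j n ∧ b j n ≤ B * a j n) :
    ∀ᵐ α : Fin k → ℝ, (∀ j, 0 < α j) → ∀ f : (Fin k → ℝ) → ℝ, Continuous f →
      (∃ C : ℝ, ∀ x, |f x| ≤ C * (1 + ‖x‖ ^ 2)) →
      Integrable f (Measure.pi fun _ : Fin k => (μ : Measure ℝ)) ∧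
      Tendsto (fun N : ℕ => (∑ n ∈ Finset.range N, f (fun j => E (α j * a j n + b j n))) / (N:ℝ)) atTop
        (𝓝 (∫ x, f x ∂(Measure.pi fun _ : Fin k => (μ : Measure ℝ)))) := by
  filter_upwards [mixed' h b af φ, good2_pi hX h hB hb] with α h1 h3 hα f hf hfg
  refine quad_conv (X := fun n j => E (α j * a j n + b j n)) (fun g hg hgb => law_of_char (fun t => ?_) hg hgb) ?_ hf hfg
  · exact charE hμ (q := fun n (j : Fin k) => dl (a j) (b j) n (α j)) (fun p K => h1 hα p K) (fun j => h3 hα j) t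
  · exact unif_int (q := fun n (j : Fin k) => dl (a j) (b j) n (α j)) (fun j => h3 hα j)

end Run7.h113.MT
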