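import Mathlib
import Pool.Agent.Run7.h113.MT.Mix
import Pool.Agent.R306.GP.CircIID

/-!
The circle problem: the metric theorem for dilated sequences.
-/

set_option autoImplicit false

open MeasureTheory Filter Topology Set Real
open scoped ENNReal
open Pool.Agent.H383.Gen (U Bd)
open Pool.Agent.H383.Gauss (En)
open Pool.Agent.H383.Circ (ag_Bd ag_zero wg_Wt En_Sand)
open Pool.Agent.Y969.TM
open Pool.Agent.R306.GP
open Pool.Agent.R306.Circ (iidMain P_En En_meas)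

namespace Run7.h113.MT

/-- a common lower bound for the sequences -/
lemma ds_of {k : ℕ} {a : Fin k → ℕ → ℝ} {δ : ℝ} (hδ : 0 < δ) (h0 : ∀ j, 0 < a j 0) (hg : ∀ j n, a j n + δ ≤ a j (n + 1)) :
    ∃ δ' : ℝ, ∀ j, DS (a j) δ' := by
  have h1 : ∀ᶠ x in 𝓝[>] (0:ℝ), x ≤ δ ∧ (∀ j, x ≤ a j 0) ∧ 0 < x := by
    refine Eventually.and ?_ (Eventually.and (eventually_all.mpr fun j => ?_) self_mem_nhdsWithin)
    · exact (nhdsWithin_le_nhds) (Iic_mem_nhds hδ)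
    · exact (nhdsWithin_le_nhds) (Iic_mem_nhds (h0 j))
  obtain ⟨x, hx1, hx2, hx3⟩ := h1.exists
  refine ⟨x, fun j => ⟨hx3, fun n => ?_, fun n => ?_⟩⟩
  · induction n with
    | zero => have := hx2 j; simpa using this
    | succ n ih =>
      have h2 := hg j n
      push_cast
      linarith
  · have h2 := hg j n
    linarith

/-- the limit law and its characteristic function -/
theorem law_char : ∃ μ : ProbabilityMeasure ℝ, (∀ x : ℝ, (μ : Measure ℝ) {x} = 0) ∧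
    (∀ u v : ℝ, u < v → 0 < (μ : Measure ℝ) (Ioo u v)) ∧
    (∀ x η : ℝ, 0 < η → ∃ R₀ : ℝ, ∀ R : ℝ, R₀ ≤ R → ∀ H : ℝ, R ^ (3 / 4 : ℝ) ≤ H → H ≤ R →
      |volume.real {r : ℝ | R < r ∧ r ≤ R + H ∧ Pool.Agent.R306.Circ.P r ≤ x * √r} - (μ : Measure ℝ).real (Iic x) * H| ≤ η * H) ∧
    ∀ t : ℝ, Tendsto (fun K => mK Pool.Agent.H383.Circ.ag (3 * Real.pi/4) K t) atTop (𝓝 (charFun (μ : Measure ℝ) t)) := by
  obtain ⟨μ, h1, h2, h3, h4⟩ := iidMain
  refine ⟨μ, h1, h2, h3, ?_⟩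
  have g1 := h4 (fun n => (n:ℝ) + 1) (fun _ => 1) 1 one_pos (fun n => by push_cast; linarith) (fun _ => one_pos)
    monotone_const
  obtain ⟨C0, hC0, hS⟩ := En_Sand
  have hX := Ctx.of ag_Bd ag_zero wg_Wt hC0 hS En_meas
  have hSq : Sq (fun n : ℕ => (n:ℝ) + 1) (fun _ => 1) 1 :=
    ⟨one_pos, le_rfl, fun n => by
      have : (0:ℝ) ≤ n := Nat.cast_nonneg n
      show (1:ℝ) ≤ (n:ℝ) + 1
      linarith, fun n => by push_cast; linarith, fun _ => one_pos, monotone_const⟩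
  have g2 := ae_exp (p := fun α => (∀ (k : ℕ) (p : Fin k → ℕ) (K : ℕ),
    Tendsto (fun N : ℕ => (∑ n ∈ Finset.range N, ∏ j : Fin k, ((U Pool.Agent.H383.Circ.ag (3 * Real.pi/4) (pj (fun n : ℕ => (n:ℝ) + 1) (fun _ => 1) n (Real.log α) j) K : ℝ) : ℂ) ^ (p j)) / (N:ℂ)) atTop
      (𝓝 (∏ j, ZZ Pool.Agent.H383.Circ.ag (3 * Real.pi/4) (p j) K))) ∧
      (∀ (j : ℕ), ∀ ε : ℝ, 0 < ε → ∀ᶠ K : ℕ in atTop, ∀ᶠ N : ℕ in atTop,
      ∑ n ∈ Finset.range N, (En (pj (fun n : ℕ => (n:ℝ) + 1) (fun _ => 1) n (Real.log α) j) - U Pool.Agent.H383.Circ.ag (3 * Real.pi/4) (pj (fun n : ℕ => (n:ℝ) + 1) (fun _ => 1) n (Real.log α) j) K) ^ 2 ≤ ε * N))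
      (by
        filter_upwards [mixed hSq Pool.Agent.H383.Circ.ag (3 * Real.pi/4), good2_pos hX hSq] with y hy1 hy2 hy0
        rw [Real.log_exp]
        exact ⟨hy1 hy0, hy2 hy0⟩)
  have g3 : ∀ᵐ α ∂(volume.restrict (Ioi (1:ℝ))), ∀ t : ℝ,
      Tendsto (fun K => mK Pool.Agent.H383.Circ.ag (3 * Real.pi/4) K t) atTop (𝓝 (charFun (μ : Measure ℝ) t)) := by
    rw [ae_restrict_iff' measurableSet_Ioi]
    filter_upwards [g1, g2] with α ha1 ha2 hα t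
    obtain ⟨hf, -, -⟩ := ha1 hα
    obtain ⟨hm, hl⟩ := ha2 hα
    have hα0 : 0 < α := lt_trans one_pos hα
    have e1 : ∀ n : ℕ, (1:ℝ) * α ^ ((n:ℝ) + 1) * α ^ (0:ℕ) = pj (fun n : ℕ => (n:ℝ) + 1) (fun _ => 1) n (Real.log α) 0 := by
      intro n
      unfold pj pt
      rw [Real.rpow_def_of_pos hα0, mul_comm (Real.log α)]
      simp
    refine mK_conv (E := En) (q := fun n => pj (fun n : ℕ => (n:ℝ) + 1) (fun _ => 1) n (Real.log α) 0) t
      (fun p K => ?_) (hl 0) (char_of_law (fun f hfc hfb => ?_) t)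
    · have := hm 1 (fun _ => p) K
      simpa using this
    · obtain ⟨C, hC⟩ := hfb
      have hC0 : 0 ≤ C := by
        have h5 := hC 0
        have h6 := abs_nonneg (f 0)
        simp at h5
        linarith
      have h6 := (hf 1 (fun x => f (x 0)) (by fun_prop) ⟨C, 2, fun x => by
        have h7 := hC (x 0)
        have h8 : (x 0) ^ 2 ≤ ‖x‖ ^ 2 := by
          rw [← sq_abs]
          exact pow_le_pow_left₀ (abs_nonneg _) (norm_le_pi_norm x 0) 2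
        have h9 : C * (1 + (x 0) ^ 2) ≤ C * (1 + ‖x‖ ^ 2) := by gcongr
        linarith⟩).2
      have e5 : ∫ x, f (x 0) ∂(Measure.pi fun _ : Fin 1 => (μ : Measure ℝ)) = ∫ x, f x ∂(μ : Measure ℝ) := by
        have h9 := (measurePreserving_eval (fun _ : Fin 1 => (μ : Measure ℝ)) 0)
        have h10 := integral_map (f := f) (μ := Measure.pi fun _ : Fin 1 => (μ : Measure ℝ))
          h9.measurable.aemeasurable hfc.aestronglyMeasurable
        rw [h9.map_eq] at h10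
        exact h10.symm
      rw [e5] at h6
      refine h6.congr fun N => ?_
      congr 1
      apply Finset.sum_congr rfl
      intro n _
      rw [← e1]
      rfl
  have : (ae (volume.restrict (Ioi (1:ℝ)))).NeBot := ae_restrict_neBot.mpr (by simp)
  obtain ⟨α, hα⟩ := g3.exists
  exact hα

/-- the metric theorem -/
theorem dilMain : ∃ μ : ProbabilityMeasure ℝ, (∀ x : ℝ, (μ : Measure ℝ) {x} = 0) ∧
    (∀ u v : ℝ, u < v → 0 < (μ : Measure ℝ) (Ioo u v)) ∧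
    (∀ x η : ℝ, 0 < η → ∃ R₀ : ℝ, ∀ R : ℝ, R₀ ≤ R → ∀ H : ℝ, R ^ (3 / 4 : ℝ) ≤ H → H ≤ R →
      |volume.real {r : ℝ | R < r ∧ r ≤ R + H ∧ Pool.Agent.R306.Circ.P r ≤ x * √r} - (μ : Measure ℝ).real (Iic x) * H| ≤ η * H) ∧
    ∀ (k : ℕ) (a b : Fin k → ℕ → ℝ) (δ B : ℝ), 0 < δ → (∀ j, 0 < a j 0) → (∀ j n, a j n + δ ≤ a j (n + 1)) →
      (∀ j n, 0 ≤ b j n ∧ b j n ≤ B * a j n) →
      ∀ᵐ α : Fin k → ℝ, (∀ j, 0 < α j) →
        (∀ f : (Fin k → ℝ) → ℝ, Continuous f → (∃ C : ℝ, ∀ x, |f x| ≤ C * (1 + ‖x‖ ^ 2)) →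
          Integrable f (Measure.pi fun _ : Fin k => (μ : Measure ℝ)) ∧
          Tendsto (fun N : ℕ => (∑ n ∈ Finset.range N, f (fun j => En (α j * a j n + b j n))) / (N:ℝ)) atTop
            (𝓝 (∫ x, f x ∂(Measure.pi fun _ : Fin k => (μ : Measure ℝ))))) ∧
        (∀ u : Fin k → ℝ, Tendsto (fun N : ℕ =>
            (((Finset.range N).filter fun n => ∀ j : Fin k, En (α j * a j n + b j n) ≤ u j).card : ℝ) / N) atTop
          (𝓝 (∏ j, (μ : Measure ℝ).real (Iic (u j))))) := by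
  obtain ⟨μ, h1, h2, h3, h4⟩ := law_char
  refine ⟨μ, h1, h2, h3, ?_⟩
  intro k a b δ B hδ h0 hg hb
  obtain ⟨C0, hC0, hS⟩ := En_Sand
  have hX := Cx2.of ag_Bd ag_zero wg_Wt hC0 hS En_meas
  obtain ⟨δ', hDS⟩ := ds_of hδ h0 hg
  have hb' : ∀ j n, 0 ≤ b j n ∧ b j n ≤ (max B 0) * a j n := by
    intro j n
    refine ⟨(hb j n).1, (hb j n).2.trans ?_⟩
    apply mul_le_mul_of_nonneg_right (le_max_left _ _)
    have h5 := (hDS j).low n
    have h6 := (hDS j).dpos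
    have h7 : 0 ≤ δ' * ((n:ℝ) + 1) := by positivity
    linarith
  filter_upwards [law_dil hX h4 hDS (le_max_right B 0) hb'] with α hα hα0
  refine ⟨fun f hf hfg => hα hα0 f hf hfg, fun u => ?_⟩
  exact freq_of_law (X := fun n j => En (α j * a j n + b j n)) h1 (fun g hg hgb => by
    obtain ⟨Bd, hBd⟩ := hgb
    have hBd0 : 0 ≤ Bd := (abs_nonneg _).trans (hBd 0)
    exact (hα hα0 g hg ⟨Bd, fun x => by
      have h7 := hBd x
      nlinarith [sq_nonneg ‖x‖]⟩).2) u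

end Run7.h113.MT
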